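import Pool.Agent.H60.PO.Smooth

/-!
# Mixed boundary value problem for a periodic Hamiltonian (no symmetry)
-/

set_option autoImplicit false
set_option linter.unusedSectionVars false

open Metric Module Set

namespace Pool.Agent.H60.QG

open Pool.Agent.H60.PO (Ham Evo Gen Rel xi cur intg gen PerHam toHam gX gY unc)

universe u

variable {V : Type u} [NormedAddCommGroup V] [InnerProductSpace ℝ V] [FiniteDimensional ℝ V]

open scoped RealInnerProductSpace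

/-- The standing assumptions. -/
structure Reg (h : Ham V) (C : ℝ) : Prop where
  pos : 0 < C
  cH : Continuous fun p : ℝ × (V × V) => h.H p.1 p.2
  cx : Continuous fun p : ℝ × (V × V) => h.gx p.1 p.2
  cy : Continuous fun p : ℝ × (V × V) => h.gy p.1 p.2
  tay : ∀ t z k, |h.H t (z + k) - h.H t z - ⟪h.gx t z, k.1⟫ - ⟪h.gy t z, k.2⟫| ≤ C * ‖k‖ ^ 2
  lx : ∀ t z z', ‖h.gx t z - h.gx t z'‖ ≤ C * ‖z - z'‖
  ly : ∀ t z z', ‖h.gy t z - h.gy t z'‖ ≤ C * ‖z - z'‖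
  bH : ∀ t z, |h.H t z| ≤ C
  bx : ∀ t z, ‖h.gx t z‖ ≤ C
  by' : ∀ t z, ‖h.gy t z‖ ≤ C

variable {h : Ham V} {C : ℝ} {E : ℝ → V × V → ℝ → V × V}

theorem Reg.lip (hh : Reg h C) (t : ℝ) (z z' : V × V) :
    ‖h.fld t z - h.fld t z'‖ ≤ C * ‖z - z'‖ := by
  unfold Ham.fld
  rw [Prod.norm_def]
  refine max_le (hh.ly t z z') ?_
  change ‖-h.gx t z - -h.gx t z'‖ ≤ _
  have : -h.gx t z - -h.gx t z' = -(h.gx t z - h.gx t z') := by abel
  rw [this, norm_neg]
  exact hh.lx t z z'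

theorem sol_unique (hh : Reg h C) {s τ : ℝ} (hτ : 0 ≤ τ) (hCτ : C * τ ≤ 1 / 2)
    {γ γ' : ℝ → V × V} (h1 : ∀ t, HasDerivAt γ (h.fld t (γ t)) t)
    (h2 : ∀ t, HasDerivAt γ' (h.fld t (γ' t)) t) (h3 : γ s = γ' s) :
    ∀ t ∈ Icc s (s + τ), γ t = γ' t := by
  intro t ht
  have := (PO.init_bound (δ := fun t => γ t - γ' t) hτ hh.pos.le hCτ
    (fun t => (h1 t).sub (h2 t)) (fun t _ => hh.lip t _ _)).1 t ht
  simp only [h3, sub_self, norm_zero, mul_zero] at this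
  exact sub_eq_zero.1 (norm_le_zero_iff.1 this)

theorem sol_unique_bvp (hh : Reg h C) {s τ : ℝ} (hτ : 0 ≤ τ) (hCτ : C * τ ≤ 1 / 2)
    {γ γ' : ℝ → V × V} (h1 : ∀ t, HasDerivAt γ (h.fld t (γ t)) t)
    (h2 : ∀ t, HasDerivAt γ' (h.fld t (γ' t)) t) (h3 : (γ (s + τ)).1 = (γ' (s + τ)).1)
    (h4 : (γ s).2 = (γ' s).2) : ∀ t ∈ Icc s (s + τ), γ t = γ' t := by
  intro t ht
  have := (PO.bvp_bound (δ := fun t => γ t - γ' t) (M := 0) hτ hh.pos.le hCτ
    (fun t => (h1 t).sub (h2 t)) (fun t _ => hh.lip t _ _)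
    (by simp [h3]) (by simp [h4])).1 t ht
  simp only [mul_zero] at this
  exact sub_eq_zero.1 (norm_le_zero_iff.1 this)

theorem exists_bvp (hh : Reg h C) (hE : Evo h E) {s τ : ℝ} (hτ : 0 ≤ τ) (hCτ : C * τ ≤ 1 / 8)
    (u : V × V) : ∃ x : V, (E s (x, u.2) (s + τ)).1 = u.1 := by
  let T : V → V := fun x => u.1 - ((E s (x, u.2) (s + τ)).1 - x)
  have hcon : ContractingWith (1 / 4) T := by
    refine ⟨by
      rw [← NNReal.coe_lt_coe]; norm_num, LipschitzWith.of_dist_le_mul fun x x' => ?_⟩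
    have h1 := (PO.init_bound (δ := fun t => E s (x, u.2) t - E s (x', u.2) t) hτ hh.pos.le
      (hCτ.trans (by norm_num)) (fun t => (hE.deriv _ _ t).sub (hE.deriv _ _ t))
      (fun t _ => hh.lip t _ _)).2 (s + τ) ⟨by linarith, le_rfl⟩ s ⟨le_rfl, by linarith⟩
    simp only [hE.init] at h1
    have h2 : ((x, u.2) : V × V) - (x', u.2) = (x - x', 0) := by
      rw [Prod.mk_sub_mk, sub_self]
    rw [h2] at h1
    have h3 : ‖((x - x', 0) : V × V)‖ = ‖x - x'‖ := by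
      rw [Prod.norm_def]; simp
    rw [h3] at h1
    rw [dist_eq_norm, dist_eq_norm]
    have h4 : T x - T x' = -(E s (x, u.2) (s + τ) - E s (x', u.2) (s + τ) -
        ((x - x', 0) : V × V)).1 := by
      change (u.1 - ((E s (x, u.2) (s + τ)).1 - x)) - (u.1 - ((E s (x', u.2) (s + τ)).1 - x')) = _
      rw [Prod.fst_sub, Prod.fst_sub]
      have e : ((x - x', (0 : V)) : V × V).1 = x - x' := rfl
      rw [e]
      abel
    rw [h4, norm_neg]
    refine (norm_fst_le _).trans (h1.trans ?_)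
    have h5 : ((1 / 4 : NNReal) : ℝ) = 1 / 4 := by norm_num
    rw [h5]
    exact mul_le_mul_of_nonneg_right (by linarith) (norm_nonneg _)
  refine ⟨hcon.fixedPoint T, ?_⟩
  have h1 : T (hcon.fixedPoint T) = hcon.fixedPoint T := hcon.fixedPoint_isFixedPt
  change u.1 - ((E s (hcon.fixedPoint T, u.2) (s + τ)).1 - hcon.fixedPoint T) =
    hcon.fixedPoint T at h1
  have h2 : u.1 - (E s (hcon.fixedPoint T, u.2) (s + τ)).1 = 0 := by
    have : u.1 - (E s (hcon.fixedPoint T, u.2) (s + τ)).1 =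
      (u.1 - ((E s (hcon.fixedPoint T, u.2) (s + τ)).1 - hcon.fixedPoint T)) -
        hcon.fixedPoint T := by abel
    rw [this, h1, sub_self]
  exact (sub_eq_zero.1 h2).symm

variable {s τ : ℝ}

theorem cur_end (hh : Reg h C) (hE : Evo h E) (hτ : 0 ≤ τ) (hCτ : C * τ ≤ 1 / 8)
    (u : V × V) : (cur E s τ u (s + τ)).1 = u.1 := by
  have h1 := exists_bvp hh hE (s := s) hτ hCτ u
  unfold cur xi
  rw [dif_pos h1]
  exact h1.choose_spec

theorem cur_init (hE : Evo h E) (u : V × V) : (cur E s τ u s).2 = u.2 := by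
  unfold cur
  rw [hE.init]

theorem cur_deriv (hE : Evo h E) (u : V × V) (t : ℝ) :
    HasDerivAt (cur E s τ u) (h.fld t (cur E s τ u t)) t := hE.deriv _ _ _

theorem cur_cont (hE : Evo h E) (u : V × V) : Continuous (cur E s τ u) :=
  continuous_iff_continuousAt.2 fun t => (cur_deriv hE u t).continuousAt

theorem cur_diff (hh : Reg h C) (hE : Evo h E) (hτ : 0 ≤ τ) (hCτ : C * τ ≤ 1 / 8)
    (u u' : V × V) : ∀ t ∈ Icc s (s + τ), ‖cur E s τ u t - cur E s τ u' t‖ ≤ 2 * ‖u - u'‖ := by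
  refine (PO.bvp_bound (δ := fun t => cur E s τ u t - cur E s τ u' t) hτ hh.pos.le
    (hCτ.trans (by norm_num)) (fun t => (cur_deriv hE u t).sub (cur_deriv hE u' t))
    (fun t _ => hh.lip t _ _) ?_ ?_).1
  · rw [Prod.fst_sub, cur_end hh hE hτ hCτ, cur_end hh hE hτ hCτ, ← Prod.fst_sub]
    exact norm_fst_le _
  · rw [Prod.snd_sub, cur_init hE, cur_init hE, ← Prod.snd_sub]
    exact norm_snd_le _

theorem cur_eq (hh : Reg h C) (hE : Evo h E) (hτ : 0 ≤ τ) (hCτ : C * τ ≤ 1 / 8)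
    (u : V × V) {γ : ℝ → V × V} (hγ : ∀ t, HasDerivAt γ (h.fld t (γ t)) t)
    (h1 : (γ (s + τ)).1 = u.1) (h2 : (γ s).2 = u.2) :
    ∀ t ∈ Icc s (s + τ), γ t = cur E s τ u t :=
  sol_unique_bvp hh hτ (hCτ.trans (by norm_num)) hγ (cur_deriv hE u)
    (by rw [h1, cur_end hh hE hτ hCτ]) (by rw [h2, cur_init hE])

theorem fld_bdd (hh : Reg h C) (t : ℝ) (z : V × V) : ‖h.fld t z‖ ≤ C := by
  unfold Ham.fld
  rw [Prod.norm_def]
  refine max_le (hh.by' t z) ?_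
  rw [norm_neg]
  exact hh.bx t z

theorem cur_move' (hh : Reg h C) (hE : Evo h E) (u : V × V) {t t' : ℝ}
    (ht : t ∈ Icc s (s + τ)) (ht' : t' ∈ Icc s (s + τ)) :
      ‖cur E s τ u t - cur E s τ u t'‖ ≤ C * τ := by
  have h1 := Convex.norm_image_sub_le_of_norm_hasDerivWithin_le (f := cur E s τ u)
    (f' := fun t => h.fld t (cur E s τ u t)) (s := Icc s (s + τ))
    (C := C) (fun x _ => (cur_deriv hE u x).hasDerivWithinAt)
    (fun x _ => fld_bdd hh x _) (convex_Icc s (s + τ)) ht' ht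
  refine h1.trans (mul_le_mul_of_nonneg_left ?_ hh.pos.le)
  rw [Real.norm_eq_abs, abs_le]
  constructor <;> linarith [ht.1, ht.2, ht'.1, ht'.2]

theorem cur_H_cont (hh : Reg h C) (hE : Evo h E) (u : V × V) :
    Continuous fun t => h.H t (cur E s τ u t) :=
  hh.cH.comp (continuous_id.prodMk (cur_cont hE u))

theorem cur_gx_cont (hh : Reg h C) (hE : Evo h E) (u : V × V) :
    Continuous fun t => h.gx t (cur E s τ u t) :=
  hh.cx.comp (continuous_id.prodMk (cur_cont hE u))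

theorem cur_gy_cont (hh : Reg h C) (hE : Evo h E) (u : V × V) :
    Continuous fun t => h.gy t (cur E s τ u t) :=
  hh.cy.comp (continuous_id.prodMk (cur_cont hE u))

theorem intg_cont (hh : Reg h C) (hE : Evo h E) (u : V × V) : Continuous (intg h E s τ u) := by
  unfold intg
  exact ((continuous_const.sub (cur_cont hE u).snd).inner (cur_gy_cont hh hE u)).add
    (cur_H_cont hh hE u)

theorem lt_aux (hτ : 0 ≤ τ) : s ∈ Icc s (s + τ) := ⟨le_rfl, by linarith⟩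

theorem rt_aux (hτ : 0 ≤ τ) : s + τ ∈ Icc s (s + τ) := ⟨by linarith, le_rfl⟩

theorem gen_taylor (hh : Reg h C) (hE : Evo h E) (hτ : 0 ≤ τ) (hCτ : C * τ ≤ 1 / 8)
    (u k : V × V) :
    |(gen h E s τ).S (u + k) - (gen h E s τ).S u - ⟪(gen h E s τ).sx u, k.1⟫ -
      ⟪(gen h E s τ).sy u, k.2⟫| ≤ 2 * ‖k‖ ^ 2 := by
  set γ := cur E s τ u with hγ
  set γ' := cur E s τ (u + k) with hγ'
  let F : ℝ → ℝ := fun t => (∫ r in s..t, (intg h E s τ (u + k) r - intg h E s τ u r)) -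
    (⟪k.2, (γ t).1⟫ + ⟪u.2 - (γ t).2, (γ' t).1 - (γ t).1⟫)
  let F' : ℝ → ℝ := fun t => (intg h E s τ (u + k) t - intg h E s τ u t) -
    (⟪k.2, h.gy t (γ t)⟫ + (⟪u.2 - (γ t).2, h.gy t (γ' t) - h.gy t (γ t)⟫ +
      ⟪h.gx t (γ t), (γ' t).1 - (γ t).1⟫))
  have hcont : Continuous fun r => intg h E s τ (u + k) r - intg h E s τ u r :=
    (intg_cont hh hE (u + k)).sub (intg_cont hh hE u)
  have hF : ∀ t, HasDerivAt F (F' t) t := by
    intro t
    have d1 : HasDerivAt (fun t => ∫ r in s..t, (intg h E s τ (u + k) r - intg h E s τ u r))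
        (intg h E s τ (u + k) t - intg h E s τ u t) t :=
      intervalIntegral.integral_hasDerivAt_right (hcont.intervalIntegrable _ _)
        hcont.stronglyMeasurable.stronglyMeasurableAtFilter hcont.continuousAt
    have dγ : HasDerivAt γ (h.fld t (γ t)) t := cur_deriv hE u t
    have dγ' : HasDerivAt γ' (h.fld t (γ' t)) t := cur_deriv hE (u + k) t
    have d2 : HasDerivAt (fun t => (γ t).1) (h.gy t (γ t)) t := dγ.fst
    have d3 : HasDerivAt (fun t => (γ t).2) (-h.gx t (γ t)) t := dγ.snd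
    have d4 : HasDerivAt (fun t => (γ' t).1) (h.gy t (γ' t)) t := dγ'.fst
    have d5 : HasDerivAt (fun t => (⟪k.2, (γ t).1⟫ : ℝ)) ⟪k.2, h.gy t (γ t)⟫ t := by
      have := (hasDerivAt_const t k.2).inner ℝ d2
      simpa using this
    have d6 : HasDerivAt (fun t => (⟪u.2 - (γ t).2, (γ' t).1 - (γ t).1⟫ : ℝ))
        (⟪u.2 - (γ t).2, h.gy t (γ' t) - h.gy t (γ t)⟫ +
          ⟪h.gx t (γ t), (γ' t).1 - (γ t).1⟫) t := by
      have := ((d3.const_sub u.2).inner ℝ (d4.sub d2))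
      rw [neg_neg] at this
      exact this
    exact d1.sub (d5.add d6)
  have hF' : ∀ t ∈ Icc s (s + τ), ‖F' t‖ ≤ 10 * C * ‖k‖ ^ 2 := by
    intro t ht
    have e : F' t = ⟪k.2 - ((γ' t).2 - (γ t).2), h.gy t (γ' t) - h.gy t (γ t)⟫ +
        (h.H t (γ t + (γ' t - γ t)) - h.H t (γ t) - ⟪h.gx t (γ t), (γ' t - γ t).1⟫ -
          ⟪h.gy t (γ t), (γ' t - γ t).2⟫) := by
      change ((⟪(u + k).2 - (γ' t).2, h.gy t (γ' t)⟫ + h.H t (γ' t)) -
        (⟪u.2 - (γ t).2, h.gy t (γ t)⟫ + h.H t (γ t))) - _ = _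
      have e1 : γ t + (γ' t - γ t) = γ' t := by abel
      rw [e1, Prod.fst_sub, Prod.snd_sub, Prod.snd_add]
      simp only [inner_sub_left, inner_sub_right, inner_add_left]
      have s1 : ⟪h.gy t (γ t), (γ' t).2⟫ = ⟪(γ' t).2, h.gy t (γ t)⟫ := real_inner_comm _ _
      have s2 : ⟪h.gy t (γ t), (γ t).2⟫ = ⟪(γ t).2, h.gy t (γ t)⟫ := real_inner_comm _ _
      rw [s1, s2]
      ring
    have hd : ‖γ' t - γ t‖ ≤ 2 * ‖k‖ := by
      have := cur_diff hh hE hτ hCτ (u + k) u t ht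
      rwa [add_sub_cancel_left] at this
    have b1 : ‖k.2 - ((γ' t).2 - (γ t).2)‖ ≤ 3 * ‖k‖ := by
      refine (norm_sub_le _ _).trans ?_
      have h1 : ‖k.2‖ ≤ ‖k‖ := norm_snd_le k
      have h2 : ‖(γ' t).2 - (γ t).2‖ ≤ 2 * ‖k‖ := by
        rw [← Prod.snd_sub]; exact (norm_snd_le _).trans hd
      linarith
    have b2 : ‖h.gy t (γ' t) - h.gy t (γ t)‖ ≤ C * (2 * ‖k‖) :=
      (hh.ly t _ _).trans (mul_le_mul_of_nonneg_left hd hh.pos.le)
    have b3 := abs_real_inner_le_norm (k.2 - ((γ' t).2 - (γ t).2))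
      (h.gy t (γ' t) - h.gy t (γ t))
    have b4 : ‖k.2 - ((γ' t).2 - (γ t).2)‖ * ‖h.gy t (γ' t) - h.gy t (γ t)‖ ≤
        (3 * ‖k‖) * (C * (2 * ‖k‖)) := by gcongr
    have b5 := hh.tay t (γ t) (γ' t - γ t)
    have b6 : C * ‖γ' t - γ t‖ ^ 2 ≤ C * (2 * ‖k‖) ^ 2 := by
      have := hh.pos
      gcongr
    rw [e, Real.norm_eq_abs]
    refine (abs_add_le _ _).trans ?_
    have := (b3.trans b4)
    have := b5.trans b6
    nlinarith
  have hmv := Convex.norm_image_sub_le_of_norm_hasDerivWithin_le (f := F) (f' := F')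
    (s := Icc s (s + τ)) (C := 10 * C * ‖k‖ ^ 2) (fun x _ => (hF x).hasDerivWithinAt) hF'
    (convex_Icc s (s + τ)) (lt_aux hτ) (rt_aux hτ)
  have e1 : F (s + τ) - F s = (gen h E s τ).S (u + k) - (gen h E s τ).S u -
      ⟪(gen h E s τ).sx u, k.1⟫ - ⟪(gen h E s τ).sy u, k.2⟫ := by
    change ((∫ r in s..(s + τ), (intg h E s τ (u + k) r - intg h E s τ u r)) -
      (⟪k.2, (γ (s + τ)).1⟫ + ⟪u.2 - (γ (s + τ)).2, (γ' (s + τ)).1 - (γ (s + τ)).1⟫)) -
      ((∫ r in s..s, (intg h E s τ (u + k) r - intg h E s τ u r)) -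
      (⟪k.2, (γ s).1⟫ + ⟪u.2 - (γ s).2, (γ' s).1 - (γ s).1⟫)) = _
    rw [intervalIntegral.integral_same, intervalIntegral.integral_sub
      ((intg_cont hh hE (u + k)).intervalIntegrable _ _)
      ((intg_cont hh hE u).intervalIntegrable _ _)]
    have a1 : (γ (s + τ)).1 = u.1 := cur_end hh hE hτ hCτ u
    have a2 : (γ' (s + τ)).1 = (u + k).1 := cur_end hh hE hτ hCτ (u + k)
    have a3 : (γ s).2 = u.2 := cur_init hE u
    have a4 : (gen h E s τ).S (u + k) = ∫ t in s..(s + τ), intg h E s τ (u + k) t := rfl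
    have a5 : (gen h E s τ).S u = ∫ t in s..(s + τ), intg h E s τ u t := rfl
    have a6 : (gen h E s τ).sx u = u.2 - (γ (s + τ)).2 := rfl
    have a7 : (gen h E s τ).sy u = u.1 - (γ s).1 := rfl
    rw [a4, a5, a6, a7, a1, a2, a3, sub_self, inner_zero_left, Prod.fst_add, add_sub_cancel_left,
      inner_sub_left]
    have s1 : ⟪u.1, k.2⟫ = ⟪k.2, u.1⟫ := real_inner_comm _ _
    have s2 : ⟪(γ s).1, k.2⟫ = ⟪k.2, (γ s).1⟫ := real_inner_comm _ _
    rw [inner_sub_left (u.1), s1, s2]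
    ring
  rw [e1, Real.norm_eq_abs, add_sub_cancel_left, Real.norm_eq_abs, abs_of_nonneg hτ] at hmv
  refine hmv.trans ?_
  have : 0 ≤ ‖k‖ ^ 2 := sq_nonneg _
  nlinarith

theorem intg_bdd (hh : Reg h C) (hE : Evo h E) (hτ : 0 ≤ τ) (hCτ : C * τ ≤ 1 / 8)
    (u : V × V) : ∀ t ∈ Icc s (s + τ), ‖intg h E s τ u t‖ ≤ 2 * C := by
  intro t ht
  unfold intg
  rw [Real.norm_eq_abs]
  refine (abs_add_le _ _).trans ?_
  have h1 := abs_real_inner_le_norm (u.2 - (cur E s τ u t).2) (h.gy t (cur E s τ u t))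
  have h2 : ‖u.2 - (cur E s τ u t).2‖ ≤ 1 / 8 := by
    have h3 := cur_move' hh hE u (lt_aux (s := s) hτ) ht
    have h4 : u.2 - (cur E s τ u t).2 = (cur E s τ u s - cur E s τ u t).2 := by
      rw [Prod.snd_sub, cur_init hE]
    rw [h4]
    exact (norm_snd_le _).trans (h3.trans hCτ)
  have h3 := hh.by' t (cur E s τ u t)
  have h4 : ‖u.2 - (cur E s τ u t).2‖ * ‖h.gy t (cur E s τ u t)‖ ≤ 1 / 8 * C := by gcongr
  have h5 := hh.bH t (cur E s τ u t)
  have := hh.pos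
  linarith

theorem gen_rel (hh : Reg h C) (hE : Evo h E) (hτ : 0 ≤ τ) (hCτ : C * τ ≤ 1 / 8) :
    Rel (gen h E s τ) (fun z => E s z (s + τ)) := by
  intro x y x' y' h1 h2
  have e1 : (gen h E s τ).sy (x', y) = x' - xi E s τ (x', y) := by
    change x' - (cur E s τ (x', y) s).1 = _
    unfold cur
    rw [hE.init]
  rw [e1] at h1
  have e2 : x = xi E s τ (x', y) := by
    have : x = (x + (x' - xi E s τ (x', y))) - x' + xi E s τ (x', y) := by abel
    rw [this, ← h1]; abel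
  have e3 : E s (x, y) (s + τ) = cur E s τ (x', y) (s + τ) := by
    unfold cur
    rw [← e2]
  change E s (x, y) (s + τ) = (x', y')
  rw [e3]
  refine Prod.ext (cur_end hh hE hτ hCτ (x', y)) ?_
  rw [h2]
  change (cur E s τ (x', y) (s + τ)).2 = y - (y - (cur E s τ (x', y) (s + τ)).2)
  abel

theorem step_equiv (hh : Reg h C) (hE : Evo h E) (hτ : 0 ≤ τ) (hCτ : C * τ ≤ 1 / 8)
    {e : V × V} (hper : ∀ t z, h.fld t (z + e) = h.fld t z) (z : V × V) :
    E s (z + e) (s + τ) = E s z (s + τ) + e := by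
  refine sol_unique hh hτ (hCτ.trans (by norm_num)) (hE.deriv s (z + e))
    (γ' := fun t => E s z t + e) ?_ ?_ _ (rt_aux hτ)
  · intro t
    rw [hper]
    exact (hE.deriv s z t).add_const e
  · rw [hE.init, hE.init]

theorem step_comp (hh : Reg h C) (hE : Evo h E) (hτ : 0 ≤ τ) (hCτ : C * τ ≤ 1 / 8) (r : ℝ)
    (z : V × V) : E s (E r z s) (s + τ) = E r z (s + τ) := by
  refine sol_unique hh hτ (hCτ.trans (by norm_num)) (hE.deriv s (E r z s))
    (hE.deriv r z) ?_ _ (rt_aux hτ)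
  rw [hE.init]

end Pool.Agent.H60.QG
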