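import Mathlib

/-!
# Hamiltonian diffeomorphisms of the standard torus
-/

set_option autoImplicit false

open Filter Topology Function
open scoped Gradient

namespace Pool.Agent.H60.QG

/-- Points `(x, y)` of `ℝ^{2n}`. -/
abbrev PtE (n : ℕ) := EuclideanSpace ℝ (Fin n) × EuclideanSpace ℝ (Fin n)

/-- The torus `T^{2n} = ℝ^{2n} / ℤ^{2n}`. -/
abbrev Torus (n : ℕ) := (Fin n → UnitAddCircle) × (Fin n → UnitAddCircle)

/-- The projection `ℝ^{2n} → T^{2n}`. -/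
def proj {n : ℕ} (z : PtE n) : Torus n :=
  (fun i => ((z.1 i : ℝ) : UnitAddCircle), fun i => ((z.2 i : ℝ) : UnitAddCircle))

/-- `H` is (the lift of) a `C^2` function on `ℝ/ℤ × T^{2n}`. -/
structure IsHamiltonian {n : ℕ} (H : ℝ → PtE n → ℝ) : Prop where
  smooth : ContDiff ℝ 2 fun p : ℝ × PtE n => H p.1 p.2
  time : ∀ t z, H (t + 1) z = H t z
  space : ∀ t z w, proj z = proj w → H t z = H t w

/-- `f` is the time-one map on `T^{2n}` of the Hamiltonian flow of `H`: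
`x' = ∂H/∂y`, `y' = -∂H/∂x`. -/
def IsTimeOne {n : ℕ} (H : ℝ → PtE n → ℝ) (f : Torus n → Torus n) : Prop :=
  ∀ γ : ℝ → PtE n,
    (∀ t, HasDerivAt γ (∇ (fun y => H t ((γ t).1, y)) (γ t).2,
      -∇ (fun x => H t (x, (γ t).2)) (γ t).1) t) →
    f (proj (γ 0)) = proj (γ 1)

/-- The composition `f (r-1) ∘ ⋯ ∘ f 0`. -/
def compose {n : ℕ} (f : ℕ → Torus n → Torus n) : ℕ → Torus n → Torus n
  | 0 => id
  | r + 1 => f r ∘ compose f r

/-- The number of primitive periodic orbits of `φ` of period at most `T`. -/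
noncomputable def P {n : ℕ} (φ : Torus n → Torus n) (T : ℝ) : ℕ∞ :=
  {O : Set (Torus n) | ∃ x, 0 < minimalPeriod φ x ∧ (minimalPeriod φ x : ℝ) ≤ T ∧
    O = {y | ∃ k : ℕ, y = φ^[k] x}}.encard

/-- The projection as a homomorphism. -/
def projHom (n : ℕ) : PtE n →+ Torus n where
  toFun := proj
  map_zero' := rfl
  map_add' _ _ := rfl

theorem proj_eq {n : ℕ} (a b : PtE n) : proj a = proj b ↔ a - b ∈ (projHom n).ker := by
  rw [AddMonoidHom.mem_ker, map_sub, sub_eq_zero]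
  rfl

theorem coord_aux {n : ℕ} (v : EuclideanSpace ℝ (Fin n)) :
    ∃ e : EuclideanSpace ℝ (Fin n), (∀ i, ((e i : ℝ) : UnitAddCircle) = 0) ∧
      ‖v + e‖ ≤ n := by
  refine ⟨WithLp.toLp 2 fun i => -(⌊v i⌋ : ℝ), fun i => ?_, ?_⟩
  · change (((-(⌊v i⌋ : ℝ)) : ℝ) : UnitAddCircle) = 0
    rw [AddCircle.coe_eq_zero_iff]
    exact ⟨-⌊v i⌋, by simp⟩
  · have h1 : ∀ i, ‖(v + WithLp.toLp 2 fun i => -(⌊v i⌋ : ℝ)) i‖ ≤ 1 := by
      intro i
      change ‖v i + -(⌊v i⌋ : ℝ)‖ ≤ 1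
      rw [Real.norm_eq_abs, abs_le]
      have h2 := Int.floor_le (v i)
      have h3 := Int.lt_floor_add_one (v i)
      constructor <;> linarith
    rw [EuclideanSpace.norm_eq, Real.sqrt_le_left (Nat.cast_nonneg n)]
    calc ∑ i, ‖(v + WithLp.toLp 2 fun i => -(⌊v i⌋ : ℝ)) i‖ ^ 2 ≤ ∑ i : Fin n, (1 : ℝ) := by
          refine Finset.sum_le_sum fun i _ => ?_
          have := h1 i
          have := norm_nonneg ((v + WithLp.toLp 2 fun i => -(⌊v i⌋ : ℝ)) i)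
          nlinarith
      _ = n := by simp
      _ ≤ (n : ℝ) ^ 2 := by
          have : (n : ℝ) ≤ n * n := by exact_mod_cast Nat.le_mul_self n
          rw [sq]; exact this

theorem cocompact {n : ℕ} : ∀ z : PtE n, ∃ e ∈ (projHom n).ker, ‖z + e‖ ≤ n := by
  intro z
  obtain ⟨e1, h1, h1'⟩ := coord_aux z.1
  obtain ⟨e2, h2, h2'⟩ := coord_aux z.2
  refine ⟨(e1, e2), ?_, ?_⟩
  · rw [AddMonoidHom.mem_ker]
    exact Prod.ext (funext h1) (funext h2)
  · rw [Prod.norm_def]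
    exact max_le h1' h2'

end Pool.Agent.H60.QG
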