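import Pool.Agent.H60.QG.GenV
import Pool.Agent.H60.QG.Tor
import Pool.Agent.H47.QG.Act

/-!
# Compositions of Hamiltonian time-one maps are compositions of twist maps
-/

set_option autoImplicit false
set_option linter.unusedSectionVars false

open Metric Module Set
open scoped RealInnerProductSpace Gradient

namespace Pool.Agent.H60.QG

open Pool.Agent.H60.PO (PerHam toHam gX gY unc Evo)
open Pool.Agent.H47.QG (Pt flw)

variable {n : ℕ}

/-- The identification of `(Fin n → ℝ) × (Fin n → ℝ)` with the Euclidean version. -/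
noncomputable def lft (n : ℕ) : Pt n ≃L[ℝ] PtE n :=
  (EuclideanSpace.equiv (Fin n) ℝ).symm.prodCongr (EuclideanSpace.equiv (Fin n) ℝ).symm

theorem lft_fst (z : Pt n) (i : Fin n) : (lft n z).1 i = z.1 i := rfl

theorem lft_snd (z : Pt n) (i : Fin n) : (lft n z).2 i = z.2 i := rfl

theorem lft_single_fst (i : Fin n) :
    lft n (Pi.single i 1, 0) = (EuclideanSpace.single i (1 : ℝ), 0) := rfl

theorem lft_single_snd (i : Fin n) :
    lft n (0, Pi.single i 1) = (0, EuclideanSpace.single i (1 : ℝ)) := rfl

theorem fderiv_lft {Λ : AddSubgroup (PtE n)} {G : PO.Gen (EuclideanSpace ℝ (Fin n))}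
    {ψ : PtE n → PtE n} (h : GV Λ G ψ) (z k : Pt n) :
    fderiv ℝ (fun w => G.S (lft n w)) z k = dS G (lft n z) (lft n k) := by
  have h1 : HasFDerivAt (fun w => G.S (lft n w))
      ((dS G (lft n z)).comp (lft n : Pt n →L[ℝ] PtE n)) z :=
    (h.deriv (lft n z)).comp z (lft n : Pt n →L[ℝ] PtE n).hasFDerivAt
  rw [h1.fderiv]
  rfl

theorem fderiv_lft_fst {Λ : AddSubgroup (PtE n)} {G : PO.Gen (EuclideanSpace ℝ (Fin n))}
    {ψ : PtE n → PtE n} (h : GV Λ G ψ) (z : Pt n) (i : Fin n) :
    fderiv ℝ (fun w => G.S (lft n w)) z (Pi.single i 1, 0) = (G.sx (lft n z)) i := by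
  rw [fderiv_lft h, lft_single_fst, dS_apply, inner_zero_right, add_zero]
  change ⟪G.sx (lft n z), EuclideanSpace.single i (1 : ℝ)⟫ = _
  rw [EuclideanSpace.inner_single_right]
  simp

theorem fderiv_lft_snd {Λ : AddSubgroup (PtE n)} {G : PO.Gen (EuclideanSpace ℝ (Fin n))}
    {ψ : PtE n → PtE n} (h : GV Λ G ψ) (z : Pt n) (i : Fin n) :
    fderiv ℝ (fun w => G.S (lft n w)) z (0, Pi.single i 1) = (G.sy (lft n z)) i := by
  rw [fderiv_lft h, lft_single_snd, dS_apply, inner_zero_right, zero_add]
  change ⟪G.sy (lft n z), EuclideanSpace.single i (1 : ℝ)⟫ = _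
  rw [EuclideanSpace.inner_single_right]
  simp

theorem gen_lft {G : PO.Gen (EuclideanSpace ℝ (Fin n))}
    {ψ : PtE n → PtE n} (h : GV (projHom n).ker G ψ) :
    H47.QG.Gen (fun w => G.S (lft n w)) (fun w => (lft n).symm (ψ (lft n w))) where
  smooth := h.smooth.comp (lft n).contDiff
  periodic z a b := by
    have h1 : lft n (z.1 + (fun i => (a i : ℝ)), z.2 + (fun i => (b i : ℝ))) =
        lft n z + lft n (fun i => (a i : ℝ), fun i => (b i : ℝ)) := by
      rw [← map_add]
      rfl
    have h2 : lft n (fun i => (a i : ℝ), fun i => (b i : ℝ)) ∈ (projHom n).ker := by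
      rw [AddMonoidHom.mem_ker]
      refine Prod.ext (funext fun i => ?_) (funext fun i => ?_)
      · change (((a i : ℝ)) : UnitAddCircle) = 0
        rw [AddCircle.coe_eq_zero_iff]
        exact ⟨a i, by simp⟩
      · change (((b i : ℝ)) : UnitAddCircle) = 0
        rw [AddCircle.coe_eq_zero_iff]
        exact ⟨b i, by simp⟩
    change G.S (lft n _) = G.S (lft n z)
    rw [h1]
    exact h.per _ _ h2
  rel z z' := by
    have h1 : (lft n).symm (ψ (lft n z)) = z' ↔ ψ (lft n z) = lft n z' := by
      rw [ContinuousLinearEquiv.symm_apply_eq]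
    change (lft n).symm (ψ (lft n z)) = z' ↔ _
    rw [h1, h.rel]
    have h2 : ((lft n z').1, (lft n z).2) = lft n (z'.1, z.2) := rfl
    rw [h2]
    constructor
    · rintro ⟨h3, h4⟩ i
      rw [fderiv_lft_fst h, fderiv_lft_snd h]
      constructor
      · have h5 : (lft n z').1 i = ((lft n z).1 + G.sy (lft n (z'.1, z.2))) i := by rw [← h3]
        exact h5
      · have h5 : (lft n z').2 i = ((lft n z).2 - G.sx (lft n (z'.1, z.2))) i := by rw [← h4]
        exact h5
    · intro h3
      constructor
      · ext i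
        have h5 := (h3 i).1
        rw [fderiv_lft_snd h] at h5
        exact h5
      · ext i
        have h5 := (h3 i).2
        rw [fderiv_lft_fst h] at h5
        exact h5
  inv z v hv := by
    have h1 : ∀ i, fderiv ℝ (fderiv ℝ (fun w => G.S (lft n w))) z (v, 0) (0, Pi.single i 1) =
        (fderiv ℝ G.sy (lft n z) (lft n (v, 0))) i := by
      intro i
      have hS : ContDiff ℝ 2 (fun w => G.S (lft n w)) := h.smooth.comp (lft n).contDiff
      have hd : DifferentiableAt ℝ (fderiv ℝ (fun w => G.S (lft n w))) z :=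
        (hS.fderiv_right (m := 1) (by norm_num)).differentiable (by norm_num) z
      have d1 : HasFDerivAt (fun w => fderiv ℝ (fun w => G.S (lft n w)) w (0, Pi.single i 1))
          ((fderiv ℝ (fderiv ℝ (fun w => G.S (lft n w))) z).flip (0, Pi.single i 1)) z := by
        have := hd.hasFDerivAt.clm_apply
          (hasFDerivAt_const ((0, Pi.single i 1) : Pt n) z)
        refine this.congr_fderiv ?_
        ext k <;> simp
      have e : (fun w => fderiv ℝ (fun w => G.S (lft n w)) w (0, Pi.single i 1)) =
          fun w => (G.sy (lft n w)) i := by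
        funext w
        exact fderiv_lft_snd h w i
      rw [e] at d1
      have d2 : HasFDerivAt (fun w => G.sy (lft n w))
          ((fderiv ℝ G.sy (lft n z)).comp (lft n : Pt n →L[ℝ] PtE n)) z :=
        (h.sy_smooth.differentiable (by norm_num) (lft n z)).hasFDerivAt.comp z
          (lft n : Pt n →L[ℝ] PtE n).hasFDerivAt
      have d3 := (EuclideanSpace.proj (𝕜 := ℝ) i).hasFDerivAt.comp z d2
      have e2 := d1.unique d3
      have e3 := congrArg (fun A : Pt n →L[ℝ] ℝ => A (v, 0)) e2
      exact e3
    have h2 : (lft n (v, 0)).1 = fderiv ℝ G.sy (lft n z) ((lft n (v, 0)).1, 0) := by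
      ext i
      have h3 := hv i
      rw [h1 i] at h3
      exact h3
    have h3 := h.inj (lft n z) _ h2
    funext i
    have h4 : (lft n (v, 0)).1 i = (0 : EuclideanSpace ℝ (Fin n)) i := by rw [h3]
    exact h4

/-- The projection `ℝ^{2n} → T^{2n}` on plain coordinates. -/
def projP {n : ℕ} (z : Pt n) : Torus n :=
  (fun i => ((z.1 i : ℝ) : UnitAddCircle), fun i => ((z.2 i : ℝ) : UnitAddCircle))

theorem projP_eq (z : Pt n) : projP z = proj (lft n z) := rfl

/-- **Every composition of time-one maps of `C^2` Hamiltonians on the torus is a composition of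
twist maps with `C^2` periodic generating functions.** -/
theorem exists_gen {r : ℕ} (hr : 0 < r) (H : ℕ → ℝ → PtE n → ℝ) (f : ℕ → Torus n → Torus n)
    (hH : ∀ i < r, IsHamiltonian (H i)) (hf : ∀ i < r, IsTimeOne (H i) (f i)) :
    ∃ N > 0, ∃ (S : ℕ → Pt n → ℝ) (psi : ℕ → Pt n → Pt n),
      (∀ j, H47.QG.Gen (S j) (psi j)) ∧
      ∀ w, compose f r (projP w) = projP (flw psi N w) := by
  set Λ := (projHom n).ker with hΛ
  let ι : ℕ → ℕ := fun i => if i < r then i else 0
  have hι : ∀ i, ι i < r := by
    intro i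
    change (if i < r then i else 0) < r
    split_ifs with h
    · exact h
    · exact hr
  have hι' : ∀ i < r, ι i = i := fun i hi => if_pos hi
  have hP : ∀ i, PerHam Λ (H (ι i)) := by
    intro i
    have h1 := hH (ι i) (hι i)
    refine ⟨h1.smooth, h1.time, fun t z e he => h1.space t _ _ ?_⟩
    rw [proj_eq, add_sub_cancel_left]
    exact he
  obtain ⟨E, hE, N, hN, G, ψ, hG, hψ⟩ := exists_gv hr hP cocompact
  have hfE : ∀ i < r, ∀ w : PtE n, f i (proj w) = proj (E i 0 w 1) := by
    intro i hi w
    have h1 := hf i hi (fun t => E i 0 w t) (fun t => by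
      have h2 := (hE i).deriv 0 w t
      have h3 := ((hP i).hasGradientAt_fst t (E i 0 w t)).gradient
      have h4 := ((hP i).hasGradientAt_snd t (E i 0 w t)).gradient
      rw [hι' i hi] at h2 h3 h4
      rw [h3, h4]
      exact h2)
    simp only [(hE i).init] at h1
    exact h1
  have hcomp : ∀ q ≤ r, ∀ w : PtE n, compose f q (proj w) = proj (PO.cmp E q w) := by
    intro q
    induction q with
    | zero => intro _ w; rfl
    | succ q ih =>
      intro hq w
      change f q (compose f q (proj w)) = proj (E q 0 (PO.cmp E q w) 1)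
      rw [ih (by omega), hfE q (by omega)]
  refine ⟨N, hN, fun j w => (G j).S (lft n w), fun j w => (lft n).symm (ψ j (lft n w)),
    fun j => gen_lft (hG j), fun w => ?_⟩
  have h1 : ∀ K (w : Pt n), flw (fun j w => (lft n).symm (ψ j (lft n w))) K w =
      (lft n).symm (PO.flw ψ K (lft n w)) := by
    intro K
    induction K with
    | zero => intro w; exact ((lft n).symm_apply_apply w).symm
    | succ K ih =>
      intro w
      change (lft n).symm (ψ K (lft n (flw (fun j w => (lft n).symm (ψ j (lft n w))) K w))) =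
        (lft n).symm (ψ K (PO.flw ψ K (lft n w)))
      rw [ih, ContinuousLinearEquiv.apply_symm_apply]
  rw [projP_eq, projP_eq, h1, ContinuousLinearEquiv.apply_symm_apply, hψ, hcomp r le_rfl]

end Pool.Agent.H60.QG
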