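import Pool.Agent.H60.QG.Sol

/-!
# Periodicity and the generated map
-/

set_option autoImplicit false
set_option linter.unusedSectionVars false

open Metric Module Set

namespace Pool.Agent.H60.QG

open Pool.Agent.H60.PO (Ham Evo Gen Rel xi cur intg gen PerHam toHam gX gY unc)

universe u

variable {V : Type u} [NormedAddCommGroup V] [InnerProductSpace ℝ V] [FiniteDimensional ℝ V]

open scoped RealInnerProductSpace

variable {Λ : AddSubgroup (V × V)} {H : ℝ → V × V → ℝ} {s τ C : ℝ}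
variable {E : ℝ → V × V → ℝ → V × V}

theorem cur_add (hH : PerHam Λ H) (hh : Reg (toHam H) C) (hE : Evo (toHam H) E) (hτ : 0 ≤ τ)
    (hCτ : C * τ ≤ 1 / 8) (u : V × V) {e : V × V} (he : e ∈ Λ) :
    ∀ t ∈ Icc s (s + τ), cur E s τ (u + e) t = cur E s τ u t + e := by
  intro t ht
  refine (cur_eq hh hE hτ hCτ (u + e) (γ := fun t => cur E s τ u t + e) ?_ ?_ ?_ t ht).symm
  · intro t
    rw [hH.fld_per t _ e he]
    exact (cur_deriv hE u t).add_const e
  · change (cur E s τ u (s + τ) + e).1 = _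
    rw [Prod.fst_add, Prod.fst_add, cur_end hh hE hτ hCτ]
  · change (cur E s τ u s + e).2 = _
    rw [Prod.snd_add, Prod.snd_add, cur_init hE]

theorem gY_per (hH : PerHam Λ H) (t : ℝ) (z e : V × V) (he : e ∈ Λ) :
    gY H t (z + e) = gY H t z := congrArg Prod.fst (hH.fld_per t z e he)

theorem S_per (hH : PerHam Λ H) (hh : Reg (toHam H) C) (hE : Evo (toHam H) E) (hτ : 0 ≤ τ)
    (hCτ : C * τ ≤ 1 / 8) (u : V × V) {e : V × V} (he : e ∈ Λ) :
    (gen (toHam H) E s τ).S (u + e) = (gen (toHam H) E s τ).S u := by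
  refine intervalIntegral.integral_congr fun t ht => ?_
  rw [uIcc_of_le (by linarith)] at ht
  change ⟪(u + e).2 - (cur E s τ (u + e) t).2, gY H t (cur E s τ (u + e) t)⟫ +
    H t (cur E s τ (u + e) t) = ⟪u.2 - (cur E s τ u t).2, gY H t (cur E s τ u t)⟫ +
    H t (cur E s τ u t)
  rw [cur_add hH hh hE hτ hCτ u he t ht, gY_per hH t _ e he, hH.pz t _ e he, Prod.snd_add,
    Prod.snd_add, add_sub_add_right_eq_sub]

/-- The step map in terms of the generating function. -/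
theorem rel_iff {h : Ham V} (hh : Reg h C) (hE : Evo h E) (hτ : 0 ≤ τ) (hCτ : C * τ ≤ 1 / 8)
    (z z' : V × V) : E s z (s + τ) = z' ↔
      z'.1 = z.1 + (gen h E s τ).sy (z'.1, z.2) ∧ z'.2 = z.2 - (gen h E s τ).sx (z'.1, z.2) := by
  constructor
  · intro h1
    have h2 : ∀ t ∈ Icc s (s + τ), E s z t = cur E s τ (z'.1, z.2) t :=
      cur_eq hh hE hτ hCτ (z'.1, z.2) (hE.deriv s z) (by rw [h1]) (by rw [hE.init])
    have h3 := h2 s (lt_aux hτ)
    have h4 := h2 (s + τ) (rt_aux hτ)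
    rw [hE.init] at h3
    rw [h1] at h4
    constructor
    · change z'.1 = z.1 + (z'.1 - (cur E s τ (z'.1, z.2) s).1)
      rw [← h3]; abel
    · change z'.2 = z.2 - (z.2 - (cur E s τ (z'.1, z.2) (s + τ)).2)
      rw [← h4]; abel
  · rintro ⟨h1, h2⟩
    exact gen_rel hh hE hτ hCτ z.1 z.2 z'.1 z'.2 h1 h2

theorem sy_lip {h : Ham V} (hh : Reg h C) (hE : Evo h E) (hτ : 0 ≤ τ) (hCτ : C * τ ≤ 1 / 8)
    (u u' : V × V) :
    ‖(gen h E s τ).sy u - (gen h E s τ).sy u'‖ ≤ 1 / 4 * ‖u - u'‖ := by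
  have h1 := (PO.bvp_bound (δ := fun t => cur E s τ u t - cur E s τ u' t) (M := ‖u - u'‖)
    hτ hh.pos.le (hCτ.trans (by norm_num))
    (fun t => (cur_deriv hE u t).sub (cur_deriv hE u' t))
    (fun t _ => hh.lip t _ _) (by
      rw [Prod.fst_sub, cur_end hh hE hτ hCτ, cur_end hh hE hτ hCτ, ← Prod.fst_sub]
      exact norm_fst_le _) (by
      rw [Prod.snd_sub, cur_init hE, cur_init hE, ← Prod.snd_sub]
      exact norm_snd_le _)).2 (s + τ) (rt_aux hτ) s (lt_aux hτ)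
  have e : (gen h E s τ).sy u - (gen h E s τ).sy u' =
      ((cur E s τ u (s + τ) - cur E s τ u' (s + τ)) - (cur E s τ u s - cur E s τ u' s)).1 := by
    rw [Prod.fst_sub, Prod.fst_sub, Prod.fst_sub, cur_end hh hE hτ hCτ, cur_end hh hE hτ hCτ]
    change u.1 - (cur E s τ u s).1 - (u'.1 - (cur E s τ u' s).1) = _
    abel
  rw [e]
  refine (norm_fst_le _).trans (h1.trans ?_)
  have := norm_nonneg (u - u')
  nlinarith

theorem sy_inj (hH : PerHam Λ H) {R : ℝ} (hR : ∀ z : V × V, ∃ e ∈ Λ, ‖z + e‖ ≤ R)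
    (hh : Reg (toHam H) C) (hE : Evo (toHam H) E) (hτ : 0 ≤ τ) (hCτ : C * τ ≤ 1 / 8)
    (u : V × V) (v : V) (hv : v = fderiv ℝ (gen (toHam H) E s τ).sy u (v, 0)) : v = 0 := by
  have h1 : HasFDerivAt (gen (toHam H) E s τ).sy (fderiv ℝ (gen (toHam H) E s τ).sy u) u :=
    ((sy_smooth hH hR hh hE hτ hCτ).differentiable (by norm_num) u).hasFDerivAt
  have h2 : ‖fderiv ℝ (gen (toHam H) E s τ).sy u‖ ≤ 1 / 4 :=
    h1.le_of_lip' (by norm_num) (Filter.Eventually.of_forall fun u' =>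
      sy_lip hh hE hτ hCτ u' u)
  have h3 : ‖v‖ ≤ 1 / 4 * ‖v‖ := by
    have h4 := ContinuousLinearMap.le_opNorm (fderiv ℝ (gen (toHam H) E s τ).sy u) (v, 0)
    rw [← hv] at h4
    have h5 : ‖((v, 0) : V × V)‖ = ‖v‖ := by rw [Prod.norm_def]; simp
    rw [h5] at h4
    exact h4.trans (mul_le_mul_of_nonneg_right h2 (norm_nonneg _))
  have h4 := norm_nonneg v
  exact norm_le_zero_iff.1 (by linarith)

/-- The regularity constants of a periodic Hamiltonian. -/
theorem exists_reg (hH : PerHam Λ H) {R : ℝ} (hR : ∀ z : V × V, ∃ e ∈ Λ, ‖z + e‖ ≤ R) :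
    ∃ C : NNReal, Reg (toHam H) C ∧
      LipschitzWith C (fun p : ℝ × (V × V) => (gX H p.1 p.2)) ∧
      LipschitzWith C (fun p : ℝ × (V × V) => (gY H p.1 p.2)) := by
  obtain ⟨B, hB, hb0, hb1, hlip⟩ := hH.bounds hR
  set C : NNReal := (finrank ℝ V + 1) * B with hC
  have hCv : (C : ℝ) = (finrank ℝ V + 1) * B := by rw [hC]; push_cast; ring
  have hBC : (B : ℝ) ≤ C := by
    rw [hCv]
    have : (0 : ℝ) ≤ finrank ℝ V * B := by positivity
    linarith
  have hnBC : (finrank ℝ V : ℝ) * B ≤ C := by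
    rw [hCv]
    have : (0 : ℝ) ≤ B := B.2
    linarith
  have hBr : (0 : ℝ) < B := by exact_mod_cast hB
  have b1 : ∀ i, ‖stdOrthonormalBasis ℝ V i‖ = 1 := fun i =>
    (stdOrthonormalBasis ℝ V).orthonormal.1 i
  have hlip' : ∀ p p', ‖fderiv ℝ (unc H) p - fderiv ℝ (unc H) p'‖ ≤ B * ‖p - p'‖ := by
    intro p p'
    have := hlip.dist_le_mul p p'
    rwa [dist_eq_norm, dist_eq_norm] at this
  have lX : ∀ p p' : ℝ × (V × V), ‖gX H p.1 p.2 - gX H p'.1 p'.2‖ ≤ C * ‖p - p'‖ := by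
    intro p p'
    unfold gX
    rw [← Finset.sum_sub_distrib]
    simp only [← sub_smul]
    refine (PO.norm_sum_basis_le _ (B := B * ‖p - p'‖) fun i => ?_).trans ?_
    · have h1 : fderiv ℝ (unc H) (p.1, p.2) (0, (stdOrthonormalBasis ℝ V i, 0)) -
          fderiv ℝ (unc H) (p'.1, p'.2) (0, (stdOrthonormalBasis ℝ V i, 0)) =
          (fderiv ℝ (unc H) p - fderiv ℝ (unc H) p') (0, (stdOrthonormalBasis ℝ V i, 0)) := rfl
      rw [h1, ← Real.norm_eq_abs]
      refine (ContinuousLinearMap.le_opNorm _ _).trans ?_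
      rw [PO.norm_inl_aux, b1, mul_one]
      exact hlip' p p'
    · rw [← mul_assoc]
      exact mul_le_mul_of_nonneg_right hnBC (norm_nonneg _)
  have lY : ∀ p p' : ℝ × (V × V), ‖gY H p.1 p.2 - gY H p'.1 p'.2‖ ≤ C * ‖p - p'‖ := by
    intro p p'
    unfold gY
    rw [← Finset.sum_sub_distrib]
    simp only [← sub_smul]
    refine (PO.norm_sum_basis_le _ (B := B * ‖p - p'‖) fun i => ?_).trans ?_
    · have h1 : fderiv ℝ (unc H) (p.1, p.2) (0, (0, stdOrthonormalBasis ℝ V i)) -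
          fderiv ℝ (unc H) (p'.1, p'.2) (0, (0, stdOrthonormalBasis ℝ V i)) =
          (fderiv ℝ (unc H) p - fderiv ℝ (unc H) p') (0, (0, stdOrthonormalBasis ℝ V i)) := rfl
      rw [h1, ← Real.norm_eq_abs]
      refine (ContinuousLinearMap.le_opNorm _ _).trans ?_
      rw [PO.norm_inr_aux, b1, mul_one]
      exact hlip' p p'
    · rw [← mul_assoc]
      exact mul_le_mul_of_nonneg_right hnBC (norm_nonneg _)
  have hdist : ∀ (t : ℝ) (z z' : V × V), ‖((t, z) : ℝ × (V × V)) - (t, z')‖ = ‖z - z'‖ := by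
    intro t z z'
    rw [Prod.mk_sub_mk, sub_self, PO.norm_k_aux]
  -- derivative in space
  have hsum : ∀ t z (k : V × V), fderiv ℝ (unc H) (t, z) (0, k) =
      ⟪gX H t z, k.1⟫ + ⟪gY H t z, k.2⟫ := by
    intro t z k
    rw [PO.inner_gX, PO.inner_gY, ← map_add]
    congr 1
    rw [Prod.mk_add_mk, add_zero, Prod.mk_add_mk, add_zero, zero_add]
  refine ⟨C, ⟨?_, hH.smooth.continuous, hH.gX_smooth.continuous, hH.gY_smooth.continuous,
    ?_, ?_, ?_, ?_, ?_, ?_⟩, ?_, ?_⟩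
  · rw [hCv]; positivity
  · intro t z k
    change |H t (z + k) - H t z - ⟪gX H t z, k.1⟫ - ⟪gY H t z, k.2⟫| ≤ C * ‖k‖ ^ 2
    let G : ℝ → ℝ := fun r => unc H ((t, z) + r • ((0 : ℝ), k)) - r * fderiv ℝ (unc H) (t, z) (0, k)
    have hG : ∀ r, HasDerivAt G ((fderiv ℝ (unc H) ((t, z) + r • ((0 : ℝ), k)) -
        fderiv ℝ (unc H) (t, z)) (0, k)) r := by
      intro r
      have d1 : HasDerivAt (fun r : ℝ => (t, z) + r • (((0 : ℝ), k) : ℝ × (V × V))) (0, k) r := by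
        have := ((hasDerivAt_id r).smul_const (((0 : ℝ), k) : ℝ × (V × V))).const_add (t, z)
        rwa [one_smul] at this
      have d2 := (hH.diff ((t, z) + r • ((0 : ℝ), k))).hasFDerivAt.comp_hasDerivAt r d1
      have d3 : HasDerivAt (fun r : ℝ => r * fderiv ℝ (unc H) (t, z) (0, k))
          (fderiv ℝ (unc H) (t, z) (0, k)) r := by
        have := (hasDerivAt_id r).mul_const (fderiv ℝ (unc H) (t, z) (0, k))
        rwa [one_mul] at this
      rw [sub_apply]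
      exact d2.sub d3
    have hmv := Convex.norm_image_sub_le_of_norm_hasDerivWithin_le (f := G)
      (s := Icc (0 : ℝ) 1) (C := B * ‖k‖ ^ 2) (fun r _ => (hG r).hasDerivWithinAt) (fun r hr => by
        refine (ContinuousLinearMap.le_opNorm _ _).trans ?_
        rw [PO.norm_k_aux]
        have h1 := hlip' ((t, z) + r • ((0 : ℝ), k)) (t, z)
        rw [add_sub_cancel_left, norm_smul, PO.norm_k_aux, Real.norm_eq_abs, abs_of_nonneg hr.1] at h1
        have h2 : r * ‖k‖ ≤ ‖k‖ := by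
          have := norm_nonneg k
          nlinarith [hr.2]
        calc ‖fderiv ℝ (unc H) ((t, z) + r • ((0 : ℝ), k)) - fderiv ℝ (unc H) (t, z)‖ * ‖k‖
            ≤ (B * ‖k‖) * ‖k‖ := by
              refine mul_le_mul_of_nonneg_right (h1.trans ?_) (norm_nonneg _)
              exact mul_le_mul_of_nonneg_left h2 hBr.le
          _ = B * ‖k‖ ^ 2 := by ring) (convex_Icc 0 1)
      (left_mem_Icc.2 zero_le_one) (right_mem_Icc.2 zero_le_one)
    have e : G 1 - G 0 = H t (z + k) - H t z - ⟪gX H t z, k.1⟫ - ⟪gY H t z, k.2⟫ := by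
      change (unc H ((t, z) + (1 : ℝ) • ((0 : ℝ), k)) - 1 * fderiv ℝ (unc H) (t, z) (0, k)) -
        (unc H ((t, z) + (0 : ℝ) • ((0 : ℝ), k)) - 0 * fderiv ℝ (unc H) (t, z) (0, k)) = _
      rw [one_smul, zero_smul, add_zero, one_mul, zero_mul, sub_zero, Prod.mk_add_mk, add_zero,
        hsum]
      change H t (z + k) - _ - H t z = _
      ring
    rw [e] at hmv
    simp only [sub_zero, norm_one, mul_one] at hmv
    rw [Real.norm_eq_abs] at hmv
    exact hmv.trans (mul_le_mul_of_nonneg_right hBC (sq_nonneg _))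
  · intro t z z'
    have := lX (t, z) (t, z')
    rwa [hdist] at this
  · intro t z z'
    have := lY (t, z) (t, z')
    rwa [hdist] at this
  · intro t z
    exact (hb0 (t, z)).trans hBC
  · intro t z
    change ‖gX H t z‖ ≤ C
    unfold gX
    refine (PO.norm_sum_basis_le _ (B := B) fun i => ?_).trans hnBC
    rw [← Real.norm_eq_abs]
    refine (ContinuousLinearMap.le_opNorm _ _).trans ?_
    rw [PO.norm_inl_aux, b1, mul_one]
    exact hb1 _
  · intro t z
    change ‖gY H t z‖ ≤ C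
    unfold gY
    refine (PO.norm_sum_basis_le _ (B := B) fun i => ?_).trans hnBC
    rw [← Real.norm_eq_abs]
    refine (ContinuousLinearMap.le_opNorm _ _).trans ?_
    rw [PO.norm_inr_aux, b1, mul_one]
    exact hb1 _
  · exact LipschitzWith.of_dist_le_mul fun p p' => by
      rw [dist_eq_norm, dist_eq_norm]; exact lX p p'
  · exact LipschitzWith.of_dist_le_mul fun p p' => by
      rw [dist_eq_norm, dist_eq_norm]; exact lY p p'

/-- `ψ` is a `C^2` periodic twist map with generating function data `G`. -/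
structure GV (Λ : AddSubgroup (V × V)) (G : Gen V) (ψ : V × V → V × V) : Prop where
  smooth : ContDiff ℝ 2 G.S
  sy_smooth : ContDiff ℝ 1 G.sy
  deriv : ∀ u, HasFDerivAt G.S (dS G u) u
  per : ∀ u, ∀ e ∈ Λ, G.S (u + e) = G.S u
  rel : ∀ z z' : V × V, ψ z = z' ↔ z'.1 = z.1 + G.sy (z'.1, z.2) ∧ z'.2 = z.2 - G.sx (z'.1, z.2)
  inj : ∀ (u : V × V) (v : V), v = fderiv ℝ G.sy u (v, 0) → v = 0

theorem gv_gen (hH : PerHam Λ H) {R : ℝ} (hR : ∀ z : V × V, ∃ e ∈ Λ, ‖z + e‖ ≤ R)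
    (hh : Reg (toHam H) C) (hE : Evo (toHam H) E) (hτ : 0 ≤ τ) (hCτ : C * τ ≤ 1 / 8) (s : ℝ) :
    GV Λ (gen (toHam H) E s τ) (fun z => E s z (s + τ)) where
  smooth := S_smooth hH hR hh hE hτ hCτ
  sy_smooth := sy_smooth hH hR hh hE hτ hCτ
  deriv u := S_deriv hh hE hτ hCτ u
  per u _ he := S_per hH hh hE hτ hCτ u he
  rel z z' := rel_iff hh hE hτ hCτ z z'
  inj u v hv := sy_inj hH hR hh hE hτ hCτ u v hv

theorem Reg.mono {h : Ham V} {C0 : ℝ} (h1 : Reg h C) (h2 : C ≤ C0) : Reg h C0 where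
  pos := h1.pos.trans_le h2
  cH := h1.cH
  cx := h1.cx
  cy := h1.cy
  tay := fun t z k => (h1.tay t z k).trans (mul_le_mul_of_nonneg_right h2 (sq_nonneg _))
  lx := fun t z z' => (h1.lx t z z').trans (mul_le_mul_of_nonneg_right h2 (norm_nonneg _))
  ly := fun t z z' => (h1.ly t z z').trans (mul_le_mul_of_nonneg_right h2 (norm_nonneg _))
  bH := fun t z => (h1.bH t z).trans h2
  bx := fun t z => (h1.bx t z).trans h2
  by' := fun t z => (h1.by' t z).trans h2

/-- Compositions of time-one maps are compositions of twist maps. -/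
theorem exists_gv {r : ℕ} (hr : 0 < r) {H : ℕ → ℝ → V × V → ℝ} (hH : ∀ i, PerHam Λ (H i))
    {R : ℝ} (hR : ∀ z : V × V, ∃ e ∈ Λ, ‖z + e‖ ≤ R) :
    ∃ E : ℕ → ℝ → V × V → ℝ → V × V, (∀ i, Evo (toHam (H i)) (E i)) ∧
      ∃ N > 0, ∃ (G : ℕ → Gen V) (ψ : ℕ → V × V → V × V), (∀ j, GV Λ (G j) (ψ j)) ∧
        ∀ w, PO.flw ψ N w = PO.cmp E r w := by
  choose C hC hCX hCY using fun i => exists_reg (hH i) hR
  choose E hE using fun i => (hH i).evo (hCX i) (hCY i)
  refine ⟨E, hE, ?_⟩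
  obtain ⟨C0, hC0⟩ : ∃ C0 : ℝ, ∀ i < r, (C i : ℝ) ≤ C0 := by
    refine ⟨∑ i ∈ Finset.range r, (C i : ℝ), fun i hi => ?_⟩
    exact Finset.single_le_sum (f := fun i => (C i : ℝ)) (fun i _ => (C i).2)
      (Finset.mem_range.2 hi)
  have hreg : ∀ i < r, Reg (toHam (H i)) C0 := fun i hi => (hC i).mono (hC0 i hi)
  have hC0' : 0 < C0 := (hreg 0 hr).pos
  obtain ⟨N, hN1⟩ := exists_nat_gt (max (8 * C0) 1)
  have hN8 : 8 * C0 < N := (le_max_left _ _).trans_lt hN1
  have hN1' : (1 : ℝ) < N := (le_max_right _ _).trans_lt hN1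
  have hNr : (0 : ℝ) < N := by linarith
  have hN : 0 < N := by exact_mod_cast hNr
  set τ : ℝ := 1 / N with hτdef
  have hτ : 0 ≤ τ := by positivity
  have hCτ : C0 * τ ≤ 1 / 8 := by
    rw [hτdef, mul_one_div, div_le_iff₀ hNr]; linarith
  let σ : ℕ → ℝ := fun j => (j % N : ℕ) * τ
  let ι : ℕ → ℕ := fun j => (j / N) % r
  have hιr : ∀ j, ι j < r := fun j => Nat.mod_lt _ hr
  let G : ℕ → Gen V := fun j => gen (toHam (H (ι j))) (E (ι j)) (σ j) τ
  let ψ : ℕ → V × V → V × V := fun j z => E (ι j) (σ j) z (σ j + τ)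
  have hσq : ∀ q, ∀ j < N, σ (N * q + j) = j * τ := by
    intro q j hj
    change (((N * q + j) % N : ℕ) : ℝ) * τ = j * τ
    rw [Nat.mul_add_mod, Nat.mod_eq_of_lt hj]
  have hιq : ∀ q < r, ∀ j < N, ι (N * q + j) = q := by
    intro q hq j hj
    change ((N * q + j) / N) % r = q
    rw [Nat.mul_add_div hN, Nat.div_eq_of_lt hj, add_zero, Nat.mod_eq_of_lt hq]
  have hflw : ∀ q < r, ∀ j ≤ N, ∀ w,
      PO.flw ψ (N * q + j) w = E q 0 (PO.flw ψ (N * q) w) (j * τ) := by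
    intro q hq j
    induction j with
    | zero =>
      intro _ w
      rw [Nat.cast_zero, zero_mul, (hE q).init]; rfl
    | succ j ih =>
      intro hj w
      change E (ι (N * q + j)) (σ (N * q + j)) (PO.flw ψ (N * q + j) w)
        (σ (N * q + j) + τ) = _
      rw [ih (by omega), hσq q j (by omega), hιq q hq j (by omega),
        step_comp (hreg q hq) (hE q) hτ hCτ]
      congr 1
      push_cast
      ring
  have hNτ : (N : ℝ) * τ = 1 := by rw [hτdef]; field_simp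
  have hflwq : ∀ q ≤ r, ∀ w, PO.flw ψ (N * q) w = PO.cmp E q w := by
    intro q
    induction q with
    | zero => intro _ w; rfl
    | succ q ih =>
      intro hq w
      rw [Nat.mul_succ, hflw q (by omega) N le_rfl, ih (by omega), hNτ]
      rfl
  refine ⟨N * r, Nat.mul_pos hN hr, G, ψ, fun j => ?_, fun w => hflwq r le_rfl w⟩
  exact gv_gen (hH _) hR (hreg _ (hιr j)) (hE _) hτ hCτ (σ j)

end Pool.Agent.H60.QG
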