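import Mathlib

/-!
# Superposition operators on spaces of continuous functions
-/

set_option autoImplicit false
set_option linter.unusedSectionVars false

open Metric Set

namespace Pool.Agent.H60.QG

variable {K : Type*} [TopologicalSpace K] [CompactSpace K]
variable {E F : Type*} [NormedAddCommGroup E] [NormedSpace ℝ E] [NormedAddCommGroup F]
  [NormedSpace ℝ F]

/-- Pointwise application of a family of linear maps. -/
noncomputable def mulC (A : C(K, E →L[ℝ] F)) (k : C(K, E)) : C(K, F) :=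
  ⟨fun t => A t (k t), A.continuous.clm_apply k.continuous⟩

/-- Pointwise application as a bilinear map. -/
noncomputable def mulB : C(K, E →L[ℝ] F) →ₗ[ℝ] C(K, E) →ₗ[ℝ] C(K, F) :=
  LinearMap.mk₂ ℝ mulC (fun A A' k => by ext t; simp [mulC]) (fun c A k => by ext t; simp [mulC])
    (fun A k k' => by ext t; simp [mulC]) (fun c A k => by ext t; simp [mulC])

theorem mulB_bound (A : C(K, E →L[ℝ] F)) (k : C(K, E)) : ‖mulB A k‖ ≤ 1 * ‖A‖ * ‖k‖ := by
  rw [one_mul]
  refine (ContinuousMap.norm_le _ (mul_nonneg (norm_nonneg A) (norm_nonneg k))).2 fun t => ?_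
  change ‖A t (k t)‖ ≤ _
  exact ((A t).le_opNorm (k t)).trans (mul_le_mul (A.norm_coe_le_norm t) (k.norm_coe_le_norm t)
    (norm_nonneg _) (norm_nonneg _))

/-- Pointwise application as a continuous bilinear map. -/
noncomputable def mulL : C(K, E →L[ℝ] F) →L[ℝ] C(K, E) →L[ℝ] C(K, F) :=
  LinearMap.mkContinuous₂ (𝕜 := ℝ) (𝕜₂ := ℝ) (𝕜₃ := ℝ) (E := C(K, E →L[ℝ] F)) (F := C(K, E)) (G := C(K, F)) (σ₁₃ := RingHom.id ℝ)
    (σ₂₃ := RingHom.id ℝ) mulB 1 mulB_bound

theorem mulL_apply (A : C(K, E →L[ℝ] F)) (k : C(K, E)) (t : K) : mulL A k t = A t (k t) := rfl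

/-- A map `K × E → F` which is continuously differentiable in the second variable, with
uniformly continuous derivative. -/
structure Nice (g : K → E → F) (g' : K → E → E →L[ℝ] F) : Prop where
  cont : Continuous fun p : K × E => g p.1 p.2
  cont' : Continuous fun p : K × E => g' p.1 p.2
  deriv : ∀ t z, HasFDerivAt (g t) (g' t z) z
  unif : ∀ ε > 0, ∃ δ > 0, ∀ t z z', ‖z - z'‖ < δ → ‖g' t z - g' t z'‖ ≤ ε

/-- The superposition operator. -/
def nem (g : K → E → F) (hg : Continuous fun p : K × E => g p.1 p.2) (γ : C(K, E)) : C(K, F) :=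
  ⟨fun t => g t (γ t), hg.comp (continuous_id.prodMk γ.continuous)⟩

theorem nem_apply (g : K → E → F) (hg : Continuous fun p : K × E => g p.1 p.2) (γ : C(K, E))
    (t : K) : nem g hg γ t = g t (γ t) := rfl

variable {g : K → E → F} {g' : K → E → E →L[ℝ] F}

theorem Nice.nem_cont (h : Nice g g') : Continuous (nem g' h.cont') := by
  rw [Metric.continuous_iff]
  intro γ ε hε
  obtain ⟨δ, hδ, h1⟩ := h.unif (ε / 2) (half_pos hε)
  refine ⟨δ, hδ, fun γ' hγ' => ?_⟩
  rw [dist_eq_norm] at hγ' ⊢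
  refine lt_of_le_of_lt ?_ (half_lt_self hε)
  refine (ContinuousMap.norm_le _ (half_pos hε).le).2 fun t => ?_
  rw [ContinuousMap.sub_apply, nem_apply, nem_apply]
  refine h1 t _ _ ?_
  rw [← ContinuousMap.sub_apply]
  exact lt_of_le_of_lt ((γ' - γ).norm_coe_le_norm t) hγ'

theorem Nice.hasFDerivAt (h : Nice g g') (γ : C(K, E)) :
    HasFDerivAt (nem g h.cont) (mulL (nem g' h.cont' γ)) γ := by
  rw [hasFDerivAt_iff_isLittleO_nhds_zero, Asymptotics.isLittleO_iff]
  intro ε hε
  obtain ⟨δ, hδ, h1⟩ := h.unif ε hε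
  filter_upwards [Metric.ball_mem_nhds (0 : C(K, E)) hδ] with k hk
  rw [mem_ball_zero_iff] at hk
  refine (ContinuousMap.norm_le _ (by positivity)).2 fun t => ?_
  rw [ContinuousMap.sub_apply, ContinuousMap.sub_apply, nem_apply, nem_apply, mulL_apply,
    nem_apply, ContinuousMap.add_apply]
  have hkt : ‖k t‖ < δ := lt_of_le_of_lt (k.norm_coe_le_norm t) hk
  have h2 := Convex.norm_image_sub_le_of_norm_hasFDerivWithin_le' (f := g t) (f' := g' t)
    (s := ball (γ t) δ) (φ := g' t (γ t)) (C := ε) (x := γ t) (y := γ t + k t)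
    (fun z _ => (h.deriv t z).hasFDerivWithinAt) (fun z hz => by
      refine h1 t _ _ ?_
      rw [mem_ball, dist_eq_norm] at hz
      exact hz) (convex_ball _ _) (mem_ball_self hδ) (by
      rw [mem_ball, dist_eq_norm, add_sub_cancel_left]; exact hkt)
  rw [add_sub_cancel_left] at h2
  exact h2.trans (mul_le_mul_of_nonneg_left (k.norm_coe_le_norm t) hε.le)

theorem Nice.contDiff (h : Nice g g') : ContDiff ℝ 1 (nem g h.cont) := by
  rw [contDiff_one_iff_hasFDerivAt]
  exact ⟨fun γ => mulL (nem g' h.cont' γ), mulL.continuous.comp h.nem_cont, h.hasFDerivAt⟩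

end Pool.Agent.H60.QG
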