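import Pool.Agent.H60.QG.Bvp
import Pool.Agent.H60.QG.Nem

/-!
# Smoothness of the generating function of a short-time Hamiltonian map
-/

set_option autoImplicit false
set_option linter.unusedSectionVars false

open Metric Module Set

namespace Pool.Agent.H60.QG

open Pool.Agent.H60.PO (Ham Evo Gen Rel xi cur intg gen PerHam toHam gX gY unc)

universe u

variable {V : Type u} [NormedAddCommGroup V] [InnerProductSpace ℝ V] [FiniteDimensional ℝ V]

open scoped RealInnerProductSpace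

section iop

variable {s τ : ℝ}

/-- the integrand extended to the line -/
noncomputable def extd (hτ : 0 ≤ τ) (β : C(Icc s (s + τ), V × V)) : ℝ → V × V :=
  Set.IccExtend (show s ≤ s + τ by linarith) β

theorem extd_cont (hτ : 0 ≤ τ) (β : C(Icc s (s + τ), V × V)) : Continuous (extd hτ β) :=
  β.continuous.Icc_extend'

theorem extd_add (hτ : 0 ≤ τ) (β β' : C(Icc s (s + τ), V × V)) (r : ℝ) :
    extd hτ (β + β') r = extd hτ β r + extd hτ β' r := rfl

theorem extd_smul (hτ : 0 ≤ τ) (c : ℝ) (β : C(Icc s (s + τ), V × V)) (r : ℝ) :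
    extd hτ (c • β) r = c • extd hτ β r := rfl

theorem extd_norm (hτ : 0 ≤ τ) (β : C(Icc s (s + τ), V × V)) (r : ℝ) :
    ‖extd hτ β r‖ ≤ ‖β‖ := β.norm_coe_le_norm _

theorem extd_of_mem (hτ : 0 ≤ τ) (β : C(Icc s (s + τ), V × V)) {r : ℝ}
    (hr : r ∈ Icc s (s + τ)) : extd hτ β r = β ⟨r, hr⟩ := by
  unfold extd
  exact Set.IccExtend_of_mem _ _ hr

/-- The integral operator of the mixed boundary value problem (as a function). -/
noncomputable def iopF (hτ : 0 ≤ τ) (β : C(Icc s (s + τ), V × V)) : C(Icc s (s + τ), V × V) :=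
  ⟨fun t => (-∫ r in (t : ℝ)..(s + τ), (extd hτ β r).1, ∫ r in s..(t : ℝ), (extd hτ β r).2), by
    have h1 : Continuous fun r => (extd hτ β r).1 := (extd_cont hτ β).fst
    have h2 : Continuous fun r => (extd hτ β r).2 := (extd_cont hτ β).snd
    have h3 : Continuous fun t : ℝ => ∫ r in t..(s + τ), (extd hτ β r).1 := by
      have h4 : (fun t : ℝ => ∫ r in t..(s + τ), (extd hτ β r).1) =
          fun t => -∫ r in (s + τ)..t, (extd hτ β r).1 := by
        funext t
        rw [intervalIntegral.integral_symm]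
      rw [h4]
      exact (intervalIntegral.continuous_primitive (fun a b => h1.intervalIntegrable a b) _).neg
    have h4 : Continuous fun t : ℝ => ∫ r in s..t, (extd hτ β r).2 :=
      intervalIntegral.continuous_primitive (fun a b => h2.intervalIntegrable a b) _
    exact (h3.comp continuous_subtype_val).neg.prodMk (h4.comp continuous_subtype_val)⟩

theorem iopF_apply (hτ : 0 ≤ τ) (β : C(Icc s (s + τ), V × V)) (t : Icc s (s + τ)) :
    iopF hτ β t =
      (-∫ r in (t : ℝ)..(s + τ), (extd hτ β r).1, ∫ r in s..(t : ℝ), (extd hτ β r).2) := rfl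

/-- The integral operator as a linear map. -/
noncomputable def iopL (s : ℝ) (hτ : 0 ≤ τ) :
    C(Icc s (s + τ), V × V) →ₗ[ℝ] C(Icc s (s + τ), V × V) where
  toFun := iopF hτ
  map_add' β β' := by
    ext1 t
    rw [ContinuousMap.add_apply, iopF_apply, iopF_apply, iopF_apply]
    simp only [extd_add, Prod.fst_add, Prod.snd_add]
    rw [intervalIntegral.integral_add ((extd_cont hτ β).fst.intervalIntegrable _ _)
      ((extd_cont hτ β').fst.intervalIntegrable _ _),
      intervalIntegral.integral_add ((extd_cont hτ β).snd.intervalIntegrable _ _)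
      ((extd_cont hτ β').snd.intervalIntegrable _ _), neg_add]
    rfl
  map_smul' c β := by
    ext1 t
    rw [ContinuousMap.smul_apply, iopF_apply, iopF_apply]
    simp only [extd_smul, Prod.smul_fst, Prod.smul_snd, intervalIntegral.integral_smul,
      RingHom.id_apply, Prod.smul_mk, smul_neg]

theorem iopL_bound (s : ℝ) (hτ : 0 ≤ τ) (β : C(Icc s (s + τ), V × V)) :
    ‖iopL s hτ β‖ ≤ τ * ‖β‖ := by
  refine (ContinuousMap.norm_le _ (mul_nonneg hτ (norm_nonneg β))).2 fun t => ?_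
  change ‖iopF hτ β t‖ ≤ _
  rw [iopF_apply, Prod.norm_def]
  have ht := t.2
  refine max_le ?_ ?_
  · change ‖-∫ r in (t : ℝ)..(s + τ), (extd hτ β r).1‖ ≤ _
    rw [norm_neg]
    refine (intervalIntegral.norm_integral_le_of_norm_le_const (C := ‖β‖) fun r _ =>
      (norm_fst_le _).trans (extd_norm hτ β r)).trans ?_
    rw [mul_comm]
    refine mul_le_mul_of_nonneg_right ?_ (norm_nonneg _)
    rw [abs_le]
    constructor <;> linarith [ht.1, ht.2]
  · change ‖∫ r in s..(t : ℝ), (extd hτ β r).2‖ ≤ _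
    refine (intervalIntegral.norm_integral_le_of_norm_le_const (C := ‖β‖) fun r _ =>
      (norm_snd_le _).trans (extd_norm hτ β r)).trans ?_
    rw [mul_comm]
    refine mul_le_mul_of_nonneg_right ?_ (norm_nonneg _)
    rw [abs_le]
    constructor <;> linarith [ht.1, ht.2]

/-- The integral operator as a continuous linear map. -/
noncomputable def iop (s : ℝ) (hτ : 0 ≤ τ) :
    C(Icc s (s + τ), V × V) →L[ℝ] C(Icc s (s + τ), V × V) :=
  LinearMap.mkContinuous (E := C(Icc s (s + τ), V × V)) (F := C(Icc s (s + τ), V × V))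
    (iopL s hτ) τ (iopL_bound s hτ)

theorem iop_apply (hτ : 0 ≤ τ) (β : C(Icc s (s + τ), V × V)) (t : Icc s (s + τ)) :
    iop s hτ β t =
      (-∫ r in (t : ℝ)..(s + τ), (extd hτ β r).1, ∫ r in s..(t : ℝ), (extd hτ β r).2) := rfl

theorem iop_norm (hτ : 0 ≤ τ) (β : C(Icc s (s + τ), V × V)) : ‖iop s hτ β‖ ≤ τ * ‖β‖ :=
  iopL_bound s hτ β

/-- Constant curves. -/
noncomputable def cst (s τ : ℝ) : V × V →L[ℝ] C(Icc s (s + τ), V × V) :=
  LinearMap.mkContinuous (F := C(Icc s (s + τ), V × V))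
    { toFun := fun u => ContinuousMap.const _ u
      map_add' := fun _ _ => rfl
      map_smul' := fun _ _ => rfl } 1 (fun u => by
      rw [one_mul]
      exact (ContinuousMap.norm_le _ (norm_nonneg u)).2 fun t => le_rfl)

theorem cst_apply (s τ : ℝ) (u : V × V) (t : Icc s (s + τ)) : cst s τ u t = u := rfl

/-- Evaluation. -/
noncomputable def evl {s τ : ℝ} (t : Icc s (s + τ)) : C(Icc s (s + τ), V × V) →L[ℝ] V × V :=
  LinearMap.mkContinuous (E := C(Icc s (s + τ), V × V))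
    { toFun := fun γ => γ t
      map_add' := fun _ _ => rfl
      map_smul' := fun _ _ => rfl } 1 (fun γ => by
      rw [one_mul]
      exact γ.norm_coe_le_norm t)

theorem evl_apply {s τ : ℝ} (t : Icc s (s + τ)) (γ : C(Icc s (s + τ), V × V)) :
    evl t γ = γ t := rfl

end iop

section field

variable {Λ : AddSubgroup (V × V)} {H : ℝ → V × V → ℝ} {s τ : ℝ}

/-- The Hamiltonian vector field as a function of time and space. -/
noncomputable def vf (H : ℝ → V × V → ℝ) (p : ℝ × (V × V)) : V × V :=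
  (gY H p.1 p.2, -gX H p.1 p.2)

theorem vf_smooth (hH : PerHam Λ H) : ContDiff ℝ 1 (vf H) :=
  hH.gY_smooth.prodMk hH.gX_smooth.neg

theorem vf_eq (H : ℝ → V × V → ℝ) (t : ℝ) (z : V × V) : vf H (t, z) = (toHam H).fld t z := rfl

/-- Its derivative in space. -/
noncomputable def vf' (H : ℝ → V × V → ℝ) (t : ℝ) (z : V × V) : V × V →L[ℝ] V × V :=
  (fderiv ℝ (vf H) (t, z)).comp (ContinuousLinearMap.inr ℝ ℝ (V × V))

theorem vf_deriv (hH : PerHam Λ H) (t : ℝ) (z : V × V) :
    HasFDerivAt (fun w => (toHam H).fld t w) (vf' H t z) z := by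
  have h1 : HasFDerivAt (fun w : V × V => (t, w)) (ContinuousLinearMap.inr ℝ ℝ (V × V)) z :=
    hasFDerivAt_prodMk_right t z
  exact ((vf_smooth hH).differentiable (by norm_num) (t, z)).hasFDerivAt.comp z h1

theorem vf'_cont (hH : PerHam Λ H) : Continuous fun p : ℝ × (V × V) => vf' H p.1 p.2 := by
  have h1 : Continuous (fderiv ℝ (vf H)) := (vf_smooth hH).continuous_fderiv (by norm_num)
  exact (h1.comp (continuous_fst.prodMk continuous_snd)).clm_comp continuous_const

theorem vf'_per (hH : PerHam Λ H) (t : ℝ) (z e : V × V) (he : e ∈ Λ) :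
    vf' H t (z + e) = vf' H t z := by
  have h1 : ∀ p, vf H (p + ((0 : ℝ), e)) = vf H p := by
    intro p
    change (toHam H).fld (p.1 + 0) (p.2 + e) = (toHam H).fld p.1 p.2
    rw [add_zero]
    exact hH.fld_per p.1 p.2 e he
  have h2 := PO.fderiv_periodic h1 (t, z)
  rw [Prod.mk_add_mk, add_zero] at h2
  unfold vf'
  rw [h2]

theorem vf'_unif (hH : PerHam Λ H) {R : ℝ} (hR : ∀ z : V × V, ∃ e ∈ Λ, ‖z + e‖ ≤ R) {a b : ℝ}
    {ε : ℝ} (hε : 0 < ε) : ∃ δ > 0, ∀ t ∈ Icc a b, ∀ z z', ‖z - z'‖ < δ →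
      ‖vf' H t z - vf' H t z'‖ ≤ ε := by
  have hK : IsCompact ((Icc a b) ×ˢ (closedBall (0 : V × V) (R + 1))) :=
    isCompact_Icc.prod (isCompact_closedBall _ _)
  have h1 := hK.uniformContinuousOn_of_continuous (vf'_cont hH).continuousOn
  obtain ⟨δ, hδ, h2⟩ := (Metric.uniformContinuousOn_iff (α := ℝ × (V × V))
    (β := V × V →L[ℝ] V × V)).1 h1 ε hε
  refine ⟨min δ 1, lt_min hδ one_pos, fun t ht z z' hz => ?_⟩
  obtain ⟨e, he, hez⟩ := hR z
  rw [← vf'_per hH t z e he, ← vf'_per hH t z' e he]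
  refine le_trans (le_of_eq (dist_eq_norm (vf' H t (z + e)) (vf' H t (z' + e))).symm) ?_
  refine (h2 (t, z + e) ⟨ht, ?_⟩ (t, z' + e) ⟨ht, ?_⟩ ?_).le
  · rw [mem_closedBall_zero_iff]
    change ‖z + e‖ ≤ R + 1
    linarith
  · rw [mem_closedBall_zero_iff]
    change ‖z' + e‖ ≤ R + 1
    have h3 : z' + e = (z + e) - (z - z') := by abel
    rw [h3]
    have h4 := norm_sub_le (z + e) (z - z')
    have h5 := hz.trans_le (min_le_right δ 1)
    linarith
  · rw [Prod.dist_eq, dist_self, max_eq_right dist_nonneg, dist_eq_norm]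
    have h3 : z + e - (z' + e) = z - z' := by abel
    rw [h3]
    exact hz.trans_le (min_le_left _ _)

/-- The vector field on a time interval. -/
noncomputable def fK (H : ℝ → V × V → ℝ) (s τ : ℝ) (t : Icc s (s + τ)) (z : V × V) : V × V :=
  (toHam H).fld t z

/-- Its derivative. -/
noncomputable def fK' (H : ℝ → V × V → ℝ) (s τ : ℝ) (t : Icc s (s + τ)) (z : V × V) :
    V × V →L[ℝ] V × V := vf' H t z

theorem vf_nice (hH : PerHam Λ H) {R : ℝ} (hR : ∀ z : V × V, ∃ e ∈ Λ, ‖z + e‖ ≤ R) (s τ : ℝ) :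
    Nice (fK H s τ) (fK' H s τ) where
  cont := by
    have h1 := (vf_smooth hH).continuous
    exact h1.comp ((continuous_subtype_val.comp continuous_fst).prodMk continuous_snd)
  cont' := (vf'_cont hH).comp ((continuous_subtype_val.comp continuous_fst).prodMk continuous_snd)
  deriv t z := vf_deriv hH t z
  unif ε hε := by
    obtain ⟨δ, hδ, h1⟩ := vf'_unif hH hR (a := s) (b := s + τ) hε
    exact ⟨δ, hδ, fun t z z' hz => h1 t t.2 z z' hz⟩

variable {C : ℝ}

theorem vf'_norm (hH : PerHam Λ H) (hh : Reg (toHam H) C) (t : ℝ) (z : V × V) :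
    ‖vf' H t z‖ ≤ C :=
  (vf_deriv hH t z).le_of_lip' hh.pos.le
    (Filter.Eventually.of_forall fun z' => hh.lip t z' z)

/-- The boundary value problem map `γ ↦ γ - I(X(γ))`. -/
noncomputable def bvm (hH : PerHam Λ H) {R : ℝ} (hR : ∀ z : V × V, ∃ e ∈ Λ, ‖z + e‖ ≤ R)
    (s : ℝ) (hτ : 0 ≤ τ) (γ : C(Icc s (s + τ), V × V)) : C(Icc s (s + τ), V × V) :=
  γ - iop s hτ (nem (fK H s τ) (vf_nice hH hR s τ).cont γ)

theorem bvm_approx (hH : PerHam Λ H) {R : ℝ} (hR : ∀ z : V × V, ∃ e ∈ Λ, ‖z + e‖ ≤ R)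
    (hh : Reg (toHam H) C) (s : ℝ) (hτ : 0 ≤ τ) (hCτ : C * τ ≤ 1 / 8) :
    ApproximatesLinearOn (bvm hH hR s hτ)
      ((ContinuousLinearEquiv.refl ℝ C(Icc s (s + τ), V × V) :
        C(Icc s (s + τ), V × V) ≃L[ℝ] C(Icc s (s + τ), V × V)) :
          C(Icc s (s + τ), V × V) →L[ℝ] C(Icc s (s + τ), V × V)) univ (1 / 8) := by
  intro γ _ γ' _
  have e : bvm hH hR s hτ γ - bvm hH hR s hτ γ' -
      ((ContinuousLinearEquiv.refl ℝ C(Icc s (s + τ), V × V) :
        C(Icc s (s + τ), V × V) ≃L[ℝ] C(Icc s (s + τ), V × V)) :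
          C(Icc s (s + τ), V × V) →L[ℝ] C(Icc s (s + τ), V × V)) (γ - γ') =
      -(iop s hτ (nem (fK H s τ) (vf_nice hH hR s τ).cont γ - nem (fK H s τ) (vf_nice hH hR s τ).cont γ')) := by
    unfold bvm
    rw [map_sub (iop s hτ)]
    change γ - _ - (γ' - _) - (γ - γ') = _
    abel
  rw [e, norm_neg]
  refine (iop_norm hτ _).trans ?_
  have h1 : ‖nem (fK H s τ) (vf_nice hH hR s τ).cont γ - nem (fK H s τ) (vf_nice hH hR s τ).cont γ'‖ ≤
      C * ‖γ - γ'‖ := by
    refine (ContinuousMap.norm_le _ (mul_nonneg hh.pos.le (norm_nonneg _))).2 fun t => ?_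
    rw [ContinuousMap.sub_apply, nem_apply, nem_apply]
    refine (hh.lip t _ _).trans (mul_le_mul_of_nonneg_left ?_ hh.pos.le)
    rw [← ContinuousMap.sub_apply]
    exact (γ - γ').norm_coe_le_norm t
  refine (mul_le_mul_of_nonneg_left h1 hτ).trans ?_
  have h2 : ((1 / 8 : NNReal) : ℝ) = 1 / 8 := by norm_num
  rw [h2]
  have h3 := norm_nonneg (γ - γ')
  calc τ * (C * ‖γ - γ'‖) = C * τ * ‖γ - γ'‖ := by ring
    _ ≤ 1 / 8 * ‖γ - γ'‖ := mul_le_mul_of_nonneg_right hCτ h3

theorem bvm_smooth (hH : PerHam Λ H) {R : ℝ} (hR : ∀ z : V × V, ∃ e ∈ Λ, ‖z + e‖ ≤ R)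
    (s : ℝ) (hτ : 0 ≤ τ) : ContDiff ℝ 1 (bvm hH hR s hτ) :=
  contDiff_id.sub ((ContinuousLinearMap.contDiff (E := C(Icc s (s + τ), V × V))
    (F := C(Icc s (s + τ), V × V)) (iop s hτ)).comp (vf_nice hH hR s τ).contDiff)

end field

end Pool.Agent.H60.QG
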