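import Pool.Agent.H60.QG.Reg

/-!
# Smooth dependence of the solution of the mixed boundary value problem
-/

set_option autoImplicit false
set_option linter.unusedSectionVars false

open Metric Module Set

namespace Pool.Agent.H60.QG

open Pool.Agent.H60.PO (Ham Evo Gen Rel xi cur intg gen PerHam toHam gX gY unc)

universe u

variable {V : Type u} [NormedAddCommGroup V] [InnerProductSpace ℝ V] [FiniteDimensional ℝ V]

open scoped RealInnerProductSpace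

variable {Λ : AddSubgroup (V × V)} {H : ℝ → V × V → ℝ} {s τ C : ℝ}

/-- The boundary value problem as a homeomorphism. -/
noncomputable def bvh (hH : PerHam Λ H) {R : ℝ} (hR : ∀ z : V × V, ∃ e ∈ Λ, ‖z + e‖ ≤ R)
    (hh : Reg (toHam H) C) (s : ℝ) (hτ : 0 ≤ τ) (hCτ : C * τ ≤ 1 / 8) :
    C(Icc s (s + τ), V × V) ≃ₜ C(Icc s (s + τ), V × V) :=
  (bvm_approx hH hR hh s hτ hCτ).toHomeomorph (bvm hH hR s hτ) (by
    rcases subsingleton_or_nontrivial C(Icc s (s + τ), V × V) with h | h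
    · exact Or.inl h
    · right
      have h1 : ‖(((ContinuousLinearEquiv.refl ℝ C(Icc s (s + τ), V × V)).symm :
        C(Icc s (s + τ), V × V) ≃L[ℝ] C(Icc s (s + τ), V × V)) :
          C(Icc s (s + τ), V × V) →L[ℝ] C(Icc s (s + τ), V × V))‖₊ = 1 := by
        exact ContinuousLinearMap.nnnorm_id
      rw [h1, inv_one]
      rw [← NNReal.coe_lt_coe]
      norm_num)

theorem bvh_apply (hH : PerHam Λ H) {R : ℝ} (hR : ∀ z : V × V, ∃ e ∈ Λ, ‖z + e‖ ≤ R)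
    (hh : Reg (toHam H) C) (s : ℝ) (hτ : 0 ≤ τ) (hCτ : C * τ ≤ 1 / 8)
    (γ : C(Icc s (s + τ), V × V)) : bvh hH hR hh s hτ hCτ γ = bvm hH hR s hτ γ := rfl

/-- The perturbation term of the derivative. -/
noncomputable def dtm (hH : PerHam Λ H) {R : ℝ} (hR : ∀ z : V × V, ∃ e ∈ Λ, ‖z + e‖ ≤ R)
    (s : ℝ) (hτ : 0 ≤ τ) (γ : C(Icc s (s + τ), V × V)) :
    C(Icc s (s + τ), V × V) →L[ℝ] C(Icc s (s + τ), V × V) :=
  (iop s hτ).comp (mulL (nem (fK' H s τ) (vf_nice hH hR s τ).cont' γ))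

theorem dtm_norm (hH : PerHam Λ H) {R : ℝ} (hR : ∀ z : V × V, ∃ e ∈ Λ, ‖z + e‖ ≤ R)
    (hh : Reg (toHam H) C) (s : ℝ) (hτ : 0 ≤ τ) (hCτ : C * τ ≤ 1 / 8)
    (γ : C(Icc s (s + τ), V × V)) : ‖dtm hH hR s hτ γ‖ ≤ 1 / 8 := by
  refine ContinuousLinearMap.opNorm_le_bound _ (by norm_num) fun k => ?_
  have h1 : ‖mulL (nem (fK' H s τ) (vf_nice hH hR s τ).cont' γ) k‖ ≤ C * ‖k‖ := by
    refine (ContinuousMap.norm_le _ (mul_nonneg hh.pos.le (norm_nonneg _))).2 fun t => ?_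
    rw [mulL_apply, nem_apply]
    refine (ContinuousLinearMap.le_opNorm _ _).trans ?_
    exact mul_le_mul (vf'_norm hH hh t (γ t)) (k.norm_coe_le_norm t) (norm_nonneg _) hh.pos.le
  refine (iop_norm hτ _).trans ((mul_le_mul_of_nonneg_left h1 hτ).trans ?_)
  calc τ * (C * ‖k‖) = C * τ * ‖k‖ := by ring
    _ ≤ 1 / 8 * ‖k‖ := mul_le_mul_of_nonneg_right hCτ (norm_nonneg k)

theorem bvm_deriv (hH : PerHam Λ H) {R : ℝ} (hR : ∀ z : V × V, ∃ e ∈ Λ, ‖z + e‖ ≤ R)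
    (s : ℝ) (hτ : 0 ≤ τ) (γ : C(Icc s (s + τ), V × V)) :
    HasFDerivAt (bvm hH hR s hτ) (1 - dtm hH hR s hτ γ) γ := by
  have h1 := (vf_nice hH hR s τ).hasFDerivAt γ
  have h2 := (ContinuousLinearMap.hasFDerivAt (E := C(Icc s (s + τ), V × V))
    (F := C(Icc s (s + τ), V × V)) (iop s hτ)
    (x := nem (fK H s τ) (vf_nice hH hR s τ).cont γ)).comp γ h1
  exact (hasFDerivAt_id γ).sub h2

/-- The derivative of the boundary value problem map as an equivalence. -/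
noncomputable def dte (hH : PerHam Λ H) {R : ℝ} (hR : ∀ z : V × V, ∃ e ∈ Λ, ‖z + e‖ ≤ R)
    (hh : Reg (toHam H) C) (s : ℝ) (hτ : 0 ≤ τ) (hCτ : C * τ ≤ 1 / 8)
    (γ : C(Icc s (s + τ), V × V)) :
    C(Icc s (s + τ), V × V) ≃L[ℝ] C(Icc s (s + τ), V × V) :=
  ContinuousLinearEquiv.ofUnit (Units.oneSub (dtm hH hR s hτ γ)
    ((dtm_norm hH hR hh s hτ hCτ γ).trans_lt (by norm_num)))

theorem bvh_symm_smooth (hH : PerHam Λ H) {R : ℝ} (hR : ∀ z : V × V, ∃ e ∈ Λ, ‖z + e‖ ≤ R)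
    (hh : Reg (toHam H) C) (s : ℝ) (hτ : 0 ≤ τ) (hCτ : C * τ ≤ 1 / 8) :
    ContDiff ℝ 1 (bvh hH hR hh s hτ hCτ).symm := by
  refine Homeomorph.contDiff_symm (bvh hH hR hh s hτ hCτ) (f₀' := dte hH hR hh s hτ hCτ)
    (fun γ => ?_) (bvm_smooth hH hR s hτ)
  exact bvm_deriv hH hR s hτ γ

variable {E : ℝ → V × V → ℝ → V × V}

/-- The solution as a continuous curve. -/
noncomputable def curK (E : ℝ → V × V → ℝ → V × V) (hE : Evo (toHam H) E) (s τ : ℝ)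
    (u : V × V) : C(Icc s (s + τ), V × V) :=
  ⟨fun t => cur E s τ u t, (cur_cont hE u).comp continuous_subtype_val⟩

theorem curK_apply (hE : Evo (toHam H) E) (u : V × V) (t : Icc s (s + τ)) :
    curK E hE s τ u t = cur E s τ u t := rfl

theorem bvm_curK (hH : PerHam Λ H) {R : ℝ} (hR : ∀ z : V × V, ∃ e ∈ Λ, ‖z + e‖ ≤ R)
    (hh : Reg (toHam H) C) (hE : Evo (toHam H) E) (hτ : 0 ≤ τ) (hCτ : C * τ ≤ 1 / 8)
    (u : V × V) : bvm hH hR s hτ (curK E hE s τ u) = cst s τ u := by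
  have hfc : Continuous fun r => (toHam H).fld r (cur E s τ u r) :=
    (vf_smooth hH).continuous.comp (continuous_id.prodMk (cur_cont hE u))
  have hext : ∀ r ∈ Icc s (s + τ), extd hτ (nem (fK H s τ) (vf_nice hH hR s τ).cont
      (curK E hE s τ u)) r = (toHam H).fld r (cur E s τ u r) := by
    intro r hr
    rw [extd_of_mem hτ _ hr]
    rfl
  ext1 t
  have ht := t.2
  unfold bvm
  rw [ContinuousMap.sub_apply, iop_apply, curK_apply, cst_apply]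
  have i1 : ∫ r in (t : ℝ)..(s + τ), (extd hτ (nem (fK H s τ) (vf_nice hH hR s τ).cont
      (curK E hE s τ u)) r).1 = (cur E s τ u (s + τ)).1 - (cur E s τ u t).1 := by
    rw [← intervalIntegral.integral_eq_sub_of_hasDerivAt
      (f := fun r => (cur E s τ u r).1) (f' := fun r => ((toHam H).fld r (cur E s τ u r)).1)
      (fun r _ => (cur_deriv hE u r).fst) (hfc.fst.intervalIntegrable _ _)]
    refine intervalIntegral.integral_congr fun r hr => ?_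
    rw [uIcc_of_le ht.2] at hr
    change (extd hτ _ r).1 = _
    rw [hext r ⟨ht.1.trans hr.1, hr.2⟩]
  have i2 : ∫ r in s..(t : ℝ), (extd hτ (nem (fK H s τ) (vf_nice hH hR s τ).cont
      (curK E hE s τ u)) r).2 = (cur E s τ u t).2 - (cur E s τ u s).2 := by
    rw [← intervalIntegral.integral_eq_sub_of_hasDerivAt
      (f := fun r => (cur E s τ u r).2) (f' := fun r => ((toHam H).fld r (cur E s τ u r)).2)
      (fun r _ => (cur_deriv hE u r).snd) (hfc.snd.intervalIntegrable _ _)]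
    refine intervalIntegral.integral_congr fun r hr => ?_
    rw [uIcc_of_le ht.1] at hr
    change (extd hτ _ r).2 = _
    rw [hext r ⟨hr.1, hr.2.trans ht.2⟩]
  rw [i1, i2, cur_end hh hE hτ hCτ, cur_init hE]
  refine Prod.ext ?_ ?_
  · change (cur E s τ u t).1 - -(u.1 - (cur E s τ u t).1) = u.1
    abel
  · change (cur E s τ u t).2 - ((cur E s τ u t).2 - u.2) = u.2
    abel

theorem curK_smooth (hH : PerHam Λ H) {R : ℝ} (hR : ∀ z : V × V, ∃ e ∈ Λ, ‖z + e‖ ≤ R)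
    (hh : Reg (toHam H) C) (hE : Evo (toHam H) E) (hτ : 0 ≤ τ) (hCτ : C * τ ≤ 1 / 8) :
    ContDiff ℝ 1 (curK E hE s τ) := by
  have h1 : curK E hE s τ = (bvh hH hR hh s hτ hCτ).symm ∘ (cst s τ) := by
    funext u
    change _ = (bvh hH hR hh s hτ hCτ).symm (cst s τ u)
    rw [← bvm_curK hH hR hh hE hτ hCτ u, ← bvh_apply hH hR hh s hτ hCτ,
      Homeomorph.symm_apply_apply]
  rw [h1]
  exact (bvh_symm_smooth hH hR hh s hτ hCτ).comp
    (ContinuousLinearMap.contDiff (F := C(Icc s (s + τ), V × V)) (cst s τ))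

theorem cur_smooth (hH : PerHam Λ H) {R : ℝ} (hR : ∀ z : V × V, ∃ e ∈ Λ, ‖z + e‖ ≤ R)
    (hh : Reg (toHam H) C) (hE : Evo (toHam H) E) (hτ : 0 ≤ τ) (hCτ : C * τ ≤ 1 / 8)
    {t : ℝ} (ht : t ∈ Icc s (s + τ)) : ContDiff ℝ 1 fun u => cur E s τ u t :=
  (ContinuousLinearMap.contDiff (E := C(Icc s (s + τ), V × V)) (evl ⟨t, ht⟩)).comp
    (curK_smooth hH hR hh hE hτ hCτ)

theorem sx_smooth (hH : PerHam Λ H) {R : ℝ} (hR : ∀ z : V × V, ∃ e ∈ Λ, ‖z + e‖ ≤ R)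
    (hh : Reg (toHam H) C) (hE : Evo (toHam H) E) (hτ : 0 ≤ τ) (hCτ : C * τ ≤ 1 / 8) :
    ContDiff ℝ 1 (gen (toHam H) E s τ).sx :=
  contDiff_snd.sub (cur_smooth hH hR hh hE hτ hCτ (rt_aux hτ)).snd

theorem sy_smooth (hH : PerHam Λ H) {R : ℝ} (hR : ∀ z : V × V, ∃ e ∈ Λ, ‖z + e‖ ≤ R)
    (hh : Reg (toHam H) C) (hE : Evo (toHam H) E) (hτ : 0 ≤ τ) (hCτ : C * τ ≤ 1 / 8) :
    ContDiff ℝ 1 (gen (toHam H) E s τ).sy :=
  contDiff_fst.sub (cur_smooth hH hR hh hE hτ hCτ (lt_aux hτ)).fst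

/-- The derivative of the generating function. -/
noncomputable def dS (G : Gen V) (u : V × V) : V × V →L[ℝ] ℝ :=
  ((innerSL ℝ (G.sx u)).comp (ContinuousLinearMap.fst ℝ V V)) +
    ((innerSL ℝ (G.sy u)).comp (ContinuousLinearMap.snd ℝ V V))

theorem dS_apply (G : Gen V) (u k : V × V) : dS G u k = ⟪G.sx u, k.1⟫ + ⟪G.sy u, k.2⟫ := rfl

theorem S_deriv {h : Ham V} (hh : Reg h C) (hE : Evo h E) (hτ : 0 ≤ τ)
    (hCτ : C * τ ≤ 1 / 8) (u : V × V) :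
    HasFDerivAt (gen h E s τ).S (dS (gen h E s τ) u) u := by
  rw [hasFDerivAt_iff_isLittleO_nhds_zero, Asymptotics.isLittleO_iff]
  intro ε hε
  filter_upwards [Metric.ball_mem_nhds (0 : V × V) (half_pos hε)] with k hk
  rw [mem_ball_zero_iff] at hk
  have h1 := gen_taylor (s := s) hh hE hτ hCτ u k
  rw [dS_apply, Real.norm_eq_abs]
  have e : (gen h E s τ).S (u + k) - (gen h E s τ).S u -
      (⟪(gen h E s τ).sx u, k.1⟫ + ⟪(gen h E s τ).sy u, k.2⟫) =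
      (gen h E s τ).S (u + k) - (gen h E s τ).S u -
      ⟪(gen h E s τ).sx u, k.1⟫ - ⟪(gen h E s τ).sy u, k.2⟫ := by ring
  rw [e]
  refine h1.trans ?_
  have := norm_nonneg k
  nlinarith

theorem S_smooth (hH : PerHam Λ H) {R : ℝ} (hR : ∀ z : V × V, ∃ e ∈ Λ, ‖z + e‖ ≤ R)
    (hh : Reg (toHam H) C) (hE : Evo (toHam H) E) (hτ : 0 ≤ τ) (hCτ : C * τ ≤ 1 / 8) :
    ContDiff ℝ 2 (gen (toHam H) E s τ).S := by
  have h1 : ContDiff ℝ 1 (dS (gen (toHam H) E s τ)) := by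
    unfold dS
    refine ContDiff.add ?_ ?_
    · exact ((innerSL ℝ).contDiff.comp (sx_smooth hH hR hh hE hτ hCτ)).clm_comp contDiff_const
    · exact ((innerSL ℝ).contDiff.comp (sy_smooth hH hR hh hE hτ hCτ)).clm_comp contDiff_const
  have h2 : ((2 : ℕ) : WithTop ℕ∞) = ((1 : ℕ) : WithTop ℕ∞) + 1 := by norm_num
  have h3 : ContDiff ℝ (((1 : ℕ) : WithTop ℕ∞) + 1) (gen (toHam H) E s τ).S := by
    rw [contDiff_succ_iff_hasFDerivAt]
    exact ⟨dS (gen (toHam H) E s τ), by exact_mod_cast h1, fun u => S_deriv hh hE hτ hCτ u⟩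
  rw [← h2] at h3
  exact_mod_cast h3

end Pool.Agent.H60.QG
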